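import Pool.Agent.D0H36.BW.Step
import Pool.Agent.K3h31.LP.Sieve

/-! Lower bounds for the number of integers free of small primes in ALL intervals (linear sieve). -/

set_option autoImplicit false

open Finset Filter

namespace Pool.Agent.D0H36.BW

open Pool.Agent.W23.DC Pool.Agent.Y882 Pool.Agent.Y882.KW

theorem cnt_dvd (L D n : ℕ) (hD : 0 < D) :
    |(((Icc 1 L).filter (fun j => D ∣ n + j)).card : ℝ) - L / D| ≤ 1 := by
  have h1 : ((Icc 1 L).filter (fun j => D ∣ n + j)).card = (n + L) / D - n / D := by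
    have h2 : ((Icc 1 L).filter (fun j => D ∣ n + j)).card = ((Ioc n (n + L)).filter (fun x => D ∣ x)).card := by
      apply card_nbij (fun j => n + j)
      · intro j hj
        simp only [coe_filter, Set.mem_ofPred_eq, mem_Icc, mem_Ioc] at hj ⊢
        exact ⟨by omega, hj.2⟩
      · intro a _ b _ hab
        simpa using hab
      · intro x hx
        simp only [coe_filter, Set.mem_ofPred_eq, mem_Ioc] at hx
        refine ⟨x - n, ?_, ?_⟩
        · simp only [coe_filter, Set.mem_ofPred_eq, mem_Icc]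
          have e : n + (x - n) = x := by omega
          rw [e]
          exact ⟨by omega, hx.2⟩
        · show n + (x - n) = x
          omega
    have h3 : (Ioc 0 (n + L)).filter (fun x => D ∣ x) =
        ((Ioc 0 n).filter (fun x => D ∣ x)) ∪ ((Ioc n (n + L)).filter (fun x => D ∣ x)) := by
      rw [← filter_union]
      congr 1
      ext x
      simp only [mem_union, mem_Ioc]
      omega
    have h4 : Disjoint ((Ioc 0 n).filter (fun x => D ∣ x)) ((Ioc n (n + L)).filter (fun x => D ∣ x)) := by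
      rw [disjoint_left]
      intro x hx hx'
      simp only [mem_filter, mem_Ioc] at hx hx'
      omega
    have h5 := card_union_of_disjoint h4
    rw [← h3, Nat.Ioc_filter_dvd_card_eq_div, Nat.Ioc_filter_dvd_card_eq_div] at h5
    rw [h2]
    omega
  rw [h1]
  have hle : n / D ≤ (n + L) / D := Nat.div_le_div_right (by omega)
  rw [Nat.cast_sub hle]
  have hD' : (0 : ℝ) < D := by exact_mod_cast hD
  have key : ∀ m : ℕ, ((m / D : ℕ) : ℝ) ≤ (m : ℝ) / D ∧ (m : ℝ) / D < ((m / D : ℕ) : ℝ) + 1 := by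
    intro m
    refine ⟨Nat.cast_div_le, ?_⟩
    rw [div_lt_iff₀ hD']
    have h6 := Nat.lt_div_mul_add (a := m) hD
    have h7 : (m : ℝ) < ((m / D * D + D : ℕ) : ℝ) := by exact_mod_cast h6
    push_cast at h7
    linarith
  obtain ⟨a1, a2⟩ := key n
  obtain ⟨b1, b2⟩ := key (n + L)
  have e : ((n + L : ℕ) : ℝ) / D = (n : ℝ) / D + (L : ℝ) / D := by push_cast; ring
  rw [e] at b1 b2
  rw [abs_le]
  constructor <;> linarith

/-- sets of primes with bounded product -/
theorem cnt_prod (P : Finset ℕ) (hP : ∀ p ∈ P, p.Prime) (X : ℝ) (hX : 0 ≤ X) (F : Finset (Finset ℕ))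
    (hF : ∀ T ∈ F, T ⊆ P ∧ ((∏ p ∈ T, p : ℕ) : ℝ) ≤ X) : (F.card : ℝ) ≤ X := by
  have h1 : F.card ≤ (Icc 1 ⌊X⌋₊).card := by
    apply card_le_card_of_injOn (fun T => ∏ p ∈ T, p)
    · intro T hT
      have hT' := hF T hT
      rw [mem_coe, mem_Icc]
      refine ⟨Nat.one_le_iff_ne_zero.2 (prod_ne_zero_iff.2 fun p hp => (hP p (hT'.1 hp)).ne_zero), ?_⟩
      exact Nat.le_floor hT'.2
    · intro T hT U hU h
      have hT' := hF T hT
      have hU' := hF U hU
      simp only at h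
      rw [← Nat.primeFactors_prod (fun p hp => hP p (hT'.1 hp)), h,
        Nat.primeFactors_prod (fun p hp => hP p (hU'.1 hp))]
  rw [Nat.card_Icc, Nat.add_sub_cancel] at h1
  calc (F.card : ℝ) ≤ (⌊X⌋₊ : ℝ) := by exact_mod_cast h1
    _ ≤ X := Nat.floor_le hX

/-- the lower bound of the linear sieve for an interval, `a < Y ^ ζ` -/
theorem lin (ζ τ' : ℝ) (hζ : 1 / 4 ≤ ζ) (hζ2 : ζ < 1 / 2) (hτ : 1 < τ') :
    ∃ δ : ℝ, 0 < δ ∧ ∃ Y0 : ℕ, 2 ≤ Y0 ∧ ∀ Y : ℕ, Y0 ≤ Y → ∀ a L n : ℕ, (a : ℝ) < (Y : ℝ) ^ ζ → 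
      δ * L / Real.log Y - 5 * Real.log Y * (Y : ℝ) ^ τ' ≤ (sv a L n).card := by
  obtain ⟨δ, hδ, Y0, H⟩ := Pool.Agent.K3h31.LP.lower 1 ζ ζ 1 τ' (by linarith) (by linarith)
    (by linarith) le_rfl le_rfl (by linarith) one_pos (by
      rw [intervalIntegral.integral_same, div_one]
      apply Real.log_pos
      rw [lt_sub_iff_add_lt, lt_div_iff₀ (by linarith)]
      linarith) hτ
  refine ⟨δ, hδ, max Y0 2, le_max_right _ _, fun Y hY a L n ha => ?_⟩
  have hY0 : Y0 ≤ Y := (le_max_left _ _).trans hY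
  have hY2 : 2 ≤ Y := (le_max_right _ _).trans hY
  have hY2' : (2 : ℝ) ≤ Y := by exact_mod_cast hY2
  have hlY : 0 < Real.log Y := Real.log_pos (by linarith)
  obtain ⟨c, hc1, hc2, hc3⟩ := H Y hY0
  have h1 := hc3 (fun p => 1 / (p : ℝ)) (Or.inr (by norm_num)) (fun p _ _ => rfl) (Icc 1 L) (fun j => n + j)
  have hPZ : ∀ p ∈ PZ Y ζ, p.Prime := by
    intro p hp
    unfold PZ at hp
    rw [mem_filter] at hp
    exact hp.2.1
  have h2 : |∑ T ∈ (PZ Y ζ).powerset, c T *
      ((((Icc 1 L).filter (fun j => ∏ p ∈ T, p ∣ n + j)).card : ℝ) -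
        (Icc 1 L).card * ∏ p ∈ T, 1 / (p : ℝ))| ≤ 5 * Real.log Y * (Y : ℝ) ^ τ' := by
    classical
    have h3 : ∑ T ∈ (PZ Y ζ).powerset, c T *
      ((((Icc 1 L).filter (fun j => ∏ p ∈ T, p ∣ n + j)).card : ℝ) -
        (Icc 1 L).card * ∏ p ∈ T, 1 / (p : ℝ)) =
        ∑ T ∈ (PZ Y ζ).powerset.filter (fun T => c T ≠ 0), c T *
      ((((Icc 1 L).filter (fun j => ∏ p ∈ T, p ∣ n + j)).card : ℝ) -
        (Icc 1 L).card * ∏ p ∈ T, 1 / (p : ℝ)) := by
      symm
      apply sum_filter_of_ne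
      intro T _ hne h0
      rw [h0, zero_mul] at hne
      exact hne rfl
    rw [h3]
    refine (abs_sum_le_sum_abs _ _).trans ?_
    have h4 : ∀ T ∈ (PZ Y ζ).powerset.filter (fun T => c T ≠ 0), |c T *
      ((((Icc 1 L).filter (fun j => ∏ p ∈ T, p ∣ n + j)).card : ℝ) -
        (Icc 1 L).card * ∏ p ∈ T, 1 / (p : ℝ))| ≤ 5 * Real.log Y := by
      intro T hT
      rw [mem_filter, mem_powerset] at hT
      have hpos : 0 < ∏ p ∈ T, p := prod_pos fun p hp => (hPZ p (hT.1 hp)).pos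
      have h5 := cnt_dvd L (∏ p ∈ T, p) n hpos
      rw [abs_mul]
      have e : ((Icc 1 L).card : ℝ) * ∏ p ∈ T, 1 / (p : ℝ) = (L : ℝ) / ((∏ p ∈ T, p : ℕ) : ℝ) := by
        rw [Nat.card_Icc, Nat.add_sub_cancel, Nat.cast_prod]
        simp only [one_div]
        rw [prod_inv_distrib]
        rfl
      rw [e]
      calc |c T| * |(((Icc 1 L).filter (fun j => ∏ p ∈ T, p ∣ n + j)).card : ℝ) -
            (L : ℝ) / ((∏ p ∈ T, p : ℕ) : ℝ)| ≤ (5 * Real.log Y) * 1 :=
            mul_le_mul (hc1 T) h5 (abs_nonneg _) (by positivity)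
        _ = _ := mul_one _
    refine (sum_le_sum h4).trans ?_
    rw [sum_const, nsmul_eq_mul]
    have h6 : (((PZ Y ζ).powerset.filter (fun T => c T ≠ 0)).card : ℝ) ≤ (Y : ℝ) ^ τ' := by
      apply cnt_prod (PZ Y ζ) hPZ _ (by positivity)
      intro T hT
      rw [mem_filter, mem_powerset] at hT
      exact ⟨hT.1, hc2 T hT.1 hT.2⟩
    calc (((PZ Y ζ).powerset.filter (fun T => c T ≠ 0)).card : ℝ) * (5 * Real.log Y)
        ≤ (Y : ℝ) ^ τ' * (5 * Real.log Y) := mul_le_mul_of_nonneg_right h6 (by positivity)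
      _ = _ := by ring
  have h7 : (((Icc 1 L).filter (fun j => 0 < WW Y ζ ζ 1 (1 / ζ) (n + j))).card : ℝ) ≤
      (sv a L n).card := by
    have h8 : (Icc 1 L).filter (fun j => 0 < WW Y ζ ζ 1 (1 / ζ) (n + j)) ⊆ sv a L n := by
      intro j hj
      rw [mem_filter] at hj
      rw [mem_sv]
      refine ⟨hj.1, fun p hp hpp hd => ?_⟩
      rw [mem_Icc] at hp
      have h9 := hj.2
      unfold WW at h9
      have h10 : p ∈ PZ Y ζ := by
        unfold PZ
        have hpa : (p : ℝ) ≤ a := by exact_mod_cast hp.2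
        have hlt : (p : ℝ) < (Y : ℝ) ^ ζ := lt_of_le_of_lt hpa ha
        have hle : (Y : ℝ) ^ ζ ≤ Y := by
          calc (Y : ℝ) ^ ζ ≤ (Y : ℝ) ^ (1 : ℝ) :=
                Real.rpow_le_rpow_of_exponent_le (by linarith) (by linarith)
            _ = Y := Real.rpow_one _
        rw [mem_filter, mem_Icc]
        refine ⟨⟨hp.1, ?_⟩, hpp, (tt_lt Y p ζ hY2 hpp.pos).2 hlt⟩
        have : (p : ℝ) ≤ Y := hlt.le.trans hle
        exact_mod_cast this
      rw [if_neg (by push Not; exact ⟨p, h10, hd⟩), zero_mul] at h9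
      exact lt_irrefl _ h9
    exact_mod_cast card_le_card h8
  have h11 := (abs_le.1 h2).1
  have h12 : δ * ((Icc 1 L).card : ℝ) / Real.log Y = δ * L / Real.log Y := by
    rw [Nat.card_Icc, Nat.add_sub_cancel]
  rw [h12] at h1
  linarith

/-- **lower bound in all intervals** -/
theorem det_lo (θ : ℝ) (h0 : 0 < θ) (h1 : θ < 1 / 2) : ∃ c : ℝ, 0 < c ∧ ∃ L0 : ℕ, ∀ L : ℕ, L0 ≤ L →
    ∀ a : ℕ, 2 ≤ a → (a : ℝ) ≤ (L : ℝ) ^ θ → ∀ n : ℕ, c * (L / Real.log a) ≤ (sv a L n).card := by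
  set ζ : ℝ := (θ + 1 / 2) / 2 with hζ
  set r : ℝ := θ / ζ with hr
  have hζ0 : 0 < ζ := by rw [hζ]; linarith
  have hr0 : 0 < r := by positivity
  have hr1 : r < 1 := by
    rw [hr, div_lt_one hζ0, hζ]
    linarith
  set η : ℝ := (1 / r - 1) / 6 with hη
  have hη0 : 0 < η := by
    rw [hη]
    have : 1 < 1 / r := by rw [lt_div_iff₀ hr0]; linarith
    linarith
  obtain ⟨δ, hδ, Y0, hY02, H⟩ := lin ζ (1 + η) (by rw [hζ]; linarith) (by rw [hζ]; linarith) (by linarith)
  have hrη : r * (1 + 3 * η) = (r + 1) / 2 := by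
    rw [hη]
    field_simp
    ring
  set Z : ℝ := (Y0 : ℝ) + 3 with hZ
  have hY0' : (2 : ℝ) ≤ Y0 := by exact_mod_cast hY02
  have hZ5 : 5 ≤ Z := by rw [hZ]; linarith
  set K2 : ℝ := 10 * (Z ^ (1 + 3 * η) / η ^ 2) with hK2
  set K : ℝ := Real.log Z / Real.log 2 + 4 with hK
  have hl2 : (1 / 2 : ℝ) < Real.log 2 := by have := Real.log_two_gt_d9; linarith
  have hlZ : 0 < Real.log Z := Real.log_pos (by linarith)
  have hK0 : 0 < K := by positivity
  have hev : ∀ᶠ L : ℕ in atTop, K2 / δ ≤ (L : ℝ) ^ ((1 - r) / 2) :=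
    tendsto_natCast_atTop_atTop.eventually
      ((tendsto_rpow_atTop (by linarith : 0 < (1 - r) / 2)).eventually_ge_atTop _)
  obtain ⟨L1, hL1⟩ := eventually_atTop.1 hev
  refine ⟨δ / (2 * K), by positivity, max L1 1, fun L hL a ha haL n => ?_⟩
  have hLL1 : L1 ≤ L := (le_max_left _ _).trans hL
  have hL1' : 1 ≤ L := (le_max_right _ _).trans hL
  have hLr : (1 : ℝ) ≤ L := by exact_mod_cast hL1'
  have ha2 : (2 : ℝ) ≤ a := by exact_mod_cast ha
  have hla : Real.log 2 ≤ Real.log a := Real.log_le_log (by norm_num) ha2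
  set A : ℝ := (a : ℝ) ^ (1 / ζ) with hA
  have hA1 : 1 ≤ A := Real.one_le_rpow (by linarith) (by positivity)
  obtain ⟨Y, hY⟩ : ∃ Y : ℕ, Y = Y0 + ⌈A⌉₊ + 1 := ⟨_, rfl⟩
  have hYlow : A < Y := by
    rw [hY]
    push_cast
    have := Nat.le_ceil A
    linarith
  have hYup : (Y : ℝ) ≤ Z * A := by
    rw [hY]
    push_cast
    have := Nat.ceil_lt_add_one (by linarith : 0 ≤ A)
    rw [hZ]
    nlinarith
  have haY : (a : ℝ) < (Y : ℝ) ^ ζ := by
    calc (a : ℝ) = A ^ ζ := by
          rw [hA, ← Real.rpow_mul (by linarith), one_div, inv_mul_cancel₀ hζ0.ne', Real.rpow_one]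
      _ < (Y : ℝ) ^ ζ := Real.rpow_lt_rpow (by linarith) hYlow hζ0
  have hY1 : (1 : ℝ) < Y := by linarith
  have hlY0 : 0 < Real.log Y := Real.log_pos hY1
  have h2 := H Y (by omega) a L n haY
  have hlY : Real.log Y ≤ K * Real.log a := by
    calc Real.log Y ≤ Real.log (Z * A) := Real.log_le_log (by linarith) hYup
      _ = Real.log Z + 1 / ζ * Real.log a := by
          rw [Real.log_mul (by linarith) (by linarith), hA, Real.log_rpow (by linarith)]
      _ ≤ Real.log Z / Real.log 2 * Real.log a + 4 * Real.log a := by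
          apply add_le_add
          · rw [div_mul_eq_mul_div, le_div_iff₀ (by linarith)]
            exact mul_le_mul_of_nonneg_left hla hlZ.le
          · apply mul_le_mul_of_nonneg_right _ (by linarith)
            rw [div_le_iff₀ hζ0, hζ]
            linarith
      _ = K * Real.log a := by rw [hK]; ring
  have hAL : A ≤ (L : ℝ) ^ r := by
    rw [hA, hr]
    calc (a : ℝ) ^ (1 / ζ) ≤ ((L : ℝ) ^ θ) ^ (1 / ζ) :=
          Real.rpow_le_rpow (by linarith) haL (by positivity)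
      _ = (L : ℝ) ^ (θ / ζ) := by
          rw [← Real.rpow_mul (by linarith)]
          congr 1
          ring
  have herr : 5 * Real.log Y * (Y : ℝ) ^ (1 + η) ≤ δ * L / Real.log Y / 2 := by
    have h3 : Real.log Y ≤ (Y : ℝ) ^ η / η := Real.log_le_rpow_div (by linarith) hη0
    have h4 : 10 * (Real.log Y * Real.log Y * (Y : ℝ) ^ (1 + η)) ≤ K2 * (L : ℝ) ^ ((r + 1) / 2) := by
      calc 10 * (Real.log Y * Real.log Y * (Y : ℝ) ^ (1 + η))
          ≤ 10 * (((Y : ℝ) ^ η / η) * ((Y : ℝ) ^ η / η) * (Y : ℝ) ^ (1 + η)) := by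
            apply mul_le_mul_of_nonneg_left _ (by norm_num)
            apply mul_le_mul_of_nonneg_right _ (by positivity)
            exact mul_le_mul h3 h3 hlY0.le (by positivity)
        _ = 10 * ((Y : ℝ) ^ (1 + 3 * η) / η ^ 2) := by
            have e : (Y : ℝ) ^ (1 + 3 * η) = (Y : ℝ) ^ η * (Y : ℝ) ^ η * (Y : ℝ) ^ (1 + η) := by
              rw [← Real.rpow_add (by linarith), ← Real.rpow_add (by linarith)]
              congr 1
              ring
            rw [e]
            field_simp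
        _ ≤ 10 * ((Z * (L : ℝ) ^ r) ^ (1 + 3 * η) / η ^ 2) := by
            apply mul_le_mul_of_nonneg_left _ (by norm_num)
            apply div_le_div_of_nonneg_right _ (by positivity)
            apply Real.rpow_le_rpow (by linarith) _ (by linarith)
            exact hYup.trans (mul_le_mul_of_nonneg_left hAL (by linarith))
        _ = K2 * (L : ℝ) ^ ((r + 1) / 2) := by
            rw [Real.mul_rpow (by linarith) (by positivity), ← Real.rpow_mul (by linarith), hrη, hK2]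
            ring
    have h5 : K2 * (L : ℝ) ^ ((r + 1) / 2) ≤ δ * L := by
      have h6 := hL1 L hLL1
      rw [div_le_iff₀ hδ] at h6
      calc K2 * (L : ℝ) ^ ((r + 1) / 2) ≤ ((L : ℝ) ^ ((1 - r) / 2) * δ) * (L : ℝ) ^ ((r + 1) / 2) :=
            mul_le_mul_of_nonneg_right h6 (by positivity)
        _ = δ * ((L : ℝ) ^ ((1 - r) / 2) * (L : ℝ) ^ ((r + 1) / 2)) := by ring
        _ = δ * L := by
            rw [← Real.rpow_add (by linarith)]
            have : (1 - r) / 2 + (r + 1) / 2 = 1 := by ring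
            rw [this, Real.rpow_one]
    have h6 : δ * L / Real.log Y / 2 = (δ * L) / (2 * Real.log Y) := by
      field_simp
    rw [h6, le_div_iff₀ (by positivity)]
    nlinarith
  have h7 : δ / (2 * K) * (L / Real.log a) ≤ δ * L / Real.log Y / 2 := by
    have h8 : δ / (2 * K) * (L / Real.log a) = (δ * L) / (2 * (K * Real.log a)) := by
      field_simp
    have h9 : δ * L / Real.log Y / 2 = (δ * L) / (2 * Real.log Y) := by
      field_simp
    rw [h8, h9]
    apply div_le_div_of_nonneg_left (by positivity) (by positivity)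
    linarith
  linarith

end Pool.Agent.D0H36.BW
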