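import Pool.Agent.Helper923.HMertens

/-! Products over the primes in `(a, y]`. -/

set_option autoImplicit false

open Finset

namespace Pool.Agent.D0H36.BW

/-- the primes in `(a, y]` -/
def pg (a y : ℕ) : Finset ℕ := (Ioc a y).filter Nat.Prime

theorem mem_pg (a y p : ℕ) : p ∈ pg a y ↔ a < p ∧ p ≤ y ∧ p.Prime := by
  unfold pg
  rw [mem_filter, mem_Ioc, and_assoc]

theorem pg_np (a y : ℕ) (h : ¬ (y + 1).Prime) : pg a (y + 1) = pg a y := by
  ext p
  rw [mem_pg, mem_pg]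
  constructor
  · rintro ⟨h1, h2, h3⟩
    have : p ≠ y + 1 := fun h4 => h (h4 ▸ h3)
    exact ⟨h1, by omega, h3⟩
  · rintro ⟨h1, h2, h3⟩
    exact ⟨h1, by omega, h3⟩

theorem pg_pr (a y : ℕ) (hay : a ≤ y) (h : (y + 1).Prime) (f : ℕ → ℝ) :
    ∏ p ∈ pg a (y + 1), f p = (∏ p ∈ pg a y, f p) * f (y + 1) := by
  have h1 : pg a (y + 1) = insert (y + 1) (pg a y) := by
    ext p
    rw [mem_insert, mem_pg, mem_pg]
    constructor
    · rintro ⟨h1, h2, h3⟩
      by_cases h4 : p = y + 1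
      · exact Or.inl h4
      · exact Or.inr ⟨h1, by omega, h3⟩
    · rintro (h4 | ⟨h1, h2, h3⟩)
      · subst h4
        exact ⟨by omega, le_rfl, h⟩
      · exact ⟨h1, by omega, h3⟩
  have h2 : y + 1 ∉ pg a y := by
    rw [mem_pg]
    omega
  rw [h1, prod_insert h2, mul_comm]

theorem pg_self (a : ℕ) : pg a a = ∅ := by
  ext p
  rw [mem_pg]
  simp
  omega

/-- the inverse of the density -/
noncomputable def VI (a y : ℕ) : ℝ := ∏ p ∈ pg a y, (1 - 1 / (p : ℝ))⁻¹

theorem u_le {p : ℕ} (hp : p.Prime) : (0 : ℝ) < 1 / p ∧ (1 : ℝ) / p ≤ 1 / 2 := by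
  have h2 : (2 : ℝ) ≤ p := by exact_mod_cast hp.two_le
  constructor
  · positivity
  · exact one_div_le_one_div_of_le (by norm_num) h2

theorem inv_bounds {u : ℝ} (h0 : 0 < u) (h1 : u ≤ 1 / 2) :
    Real.exp u ≤ (1 - u)⁻¹ ∧ (1 - u)⁻¹ ≤ Real.exp (u + 2 * u ^ 2) := by
  have h2 : 0 < 1 - u := by linarith
  constructor
  · have h3 := Real.add_one_le_exp (-u)
    rw [Real.exp_neg] at h3
    have h4 : (0 : ℝ) < (Real.exp u)⁻¹ := by positivity
    have h5 : 1 - u ≤ (Real.exp u)⁻¹ := by linarith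
    have h6 := inv_anti₀ h2 h5
    rwa [inv_inv] at h6
  · have h3 := Real.add_one_le_exp (u + 2 * u ^ 2)
    rw [inv_le_iff_one_le_mul₀ h2]
    have h4 : 1 ≤ (u + 2 * u ^ 2 + 1) * (1 - u) := by nlinarith [mul_pos h0 h0]
    nlinarith

theorem sq_sum (a y : ℕ) (ha : 1 ≤ a) (hay : a ≤ y) : ∑ p ∈ pg a y, (1 / (p : ℝ)) ^ 2 ≤ 1 := by
  calc ∑ p ∈ pg a y, (1 / (p : ℝ)) ^ 2 ≤ ∑ p ∈ Ioc a y, ((p : ℝ) ^ 2)⁻¹ := by
        have e : ∀ p ∈ pg a y, (1 / (p : ℝ)) ^ 2 = ((p : ℝ) ^ 2)⁻¹ := by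
          intro p _
          rw [one_div, inv_pow]
        rw [sum_congr rfl e]
        apply sum_le_sum_of_subset_of_nonneg (filter_subset _ _)
        intro i _ _
        positivity
    _ ≤ (a : ℝ)⁻¹ - (y : ℝ)⁻¹ := sum_Ioc_inv_sq_le_sub (by omega) hay
    _ ≤ 1 := by
        have h1 : (1 : ℝ) ≤ a := by exact_mod_cast ha
        have h2 : (0 : ℝ) ≤ (y : ℝ)⁻¹ := by positivity
        have h3 : (a : ℝ)⁻¹ ≤ 1 := inv_le_one_of_one_le₀ h1
        linarith

theorem VI_bounds : ∃ c C : ℝ, 0 < c ∧ 1 ≤ C ∧ ∀ a y : ℕ, 2 ≤ a → a ≤ y →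
    c * (Real.log y / Real.log a) ≤ VI a y ∧ VI a y ≤ C * (Real.log y / Real.log a) := by
  obtain ⟨C, hC0, hC⟩ := Pool.Agent.Helper923.HMertens.mertens_ratio
  have hl2 : (1 / 2 : ℝ) < Real.log 2 := by have := Real.log_two_gt_d9; linarith
  refine ⟨Real.exp (-(2 * C)), Real.exp (2 * C + 2), Real.exp_pos _,
    Real.one_le_exp (by linarith), fun a y ha hay => ?_⟩
  have hla : Real.log 2 ≤ Real.log a := Real.log_le_log (by norm_num) (by exact_mod_cast ha)
  have hly : Real.log 2 ≤ Real.log y := Real.log_le_log (by norm_num) (by exact_mod_cast ha.trans hay)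
  have hrat : 0 < Real.log y / Real.log a := div_pos (by linarith) (by linarith)
  have h1 := hC a y ha hay
  have h2 : C / Real.log a ≤ 2 * C := by
    rw [div_le_iff₀ (by linarith)]
    nlinarith
  have h3 := abs_le.1 (h1.trans h2)
  have h4 : Real.exp (∑ p ∈ pg a y, (1 : ℝ) / p) ≤ VI a y := by
    unfold VI
    rw [Real.exp_sum]
    apply prod_le_prod
    · intro p _; positivity
    · intro p hp
      rw [mem_pg] at hp
      obtain ⟨h5, h6⟩ := u_le hp.2.2
      exact (inv_bounds h5 h6).1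
  have h5 : VI a y ≤ Real.exp (∑ p ∈ pg a y, (1 : ℝ) / p + 2) := by
    have h6 : VI a y ≤ Real.exp (∑ p ∈ pg a y, ((1 : ℝ) / p + 2 * (1 / (p : ℝ)) ^ 2)) := by
      unfold VI
      rw [Real.exp_sum]
      apply prod_le_prod
      · intro p hp
        rw [mem_pg] at hp
        obtain ⟨h7, h8⟩ := u_le hp.2.2
        rw [inv_nonneg]
        linarith
      · intro p hp
        rw [mem_pg] at hp
        obtain ⟨h7, h8⟩ := u_le hp.2.2
        exact (inv_bounds h7 h8).2
    refine h6.trans (Real.exp_le_exp.2 ?_)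
    rw [sum_add_distrib, ← mul_sum]
    have := sq_sum a y (by omega) hay
    linarith
  have e1 : ∑ p ∈ (Finset.Ioc a y).filter Nat.Prime, (1 : ℝ) / p = ∑ p ∈ pg a y, (1 : ℝ) / p := rfl
  rw [e1] at h3
  constructor
  · refine le_trans ?_ h4
    calc Real.exp (-(2 * C)) * (Real.log y / Real.log a)
        = Real.exp (-(2 * C)) * Real.exp (Real.log (Real.log y / Real.log a)) := by
          rw [Real.exp_log hrat]
      _ = Real.exp (-(2 * C) + Real.log (Real.log y / Real.log a)) := (Real.exp_add _ _).symm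
      _ ≤ _ := Real.exp_le_exp.2 (by linarith [h3.1])
  · refine h5.trans ?_
    calc Real.exp (∑ p ∈ pg a y, (1 : ℝ) / p + 2)
        ≤ Real.exp ((2 * C + 2) + Real.log (Real.log y / Real.log a)) :=
          Real.exp_le_exp.2 (by linarith [h3.2])
      _ = Real.exp (2 * C + 2) * (Real.log y / Real.log a) := by
          rw [Real.exp_add, Real.exp_log hrat]

/-- the bound for the size of the variables at the prime `p` -/
noncomputable def xx (B : ℝ) (a L p : ℕ) : ℝ :=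
  B * (Real.log p / Real.log a) * ((a : ℝ) / p + (a : ℝ) / L)

theorem log_ratio (a p : ℕ) (ha : 2 ≤ a) (hap : a ≤ p) :
    Real.log p / Real.log a ≤ 3 * Real.sqrt ((p : ℝ) / a) := by
  have ha' : (2 : ℝ) ≤ a := by exact_mod_cast ha
  have hap' : (a : ℝ) ≤ p := by exact_mod_cast hap
  have hl2 := Real.log_two_gt_d9
  have hla : Real.log 2 ≤ Real.log a := Real.log_le_log (by norm_num) ha'
  set t := Real.sqrt ((p : ℝ) / a) with ht
  have ht1 : 1 ≤ t := by
    rw [ht]
    apply Real.le_sqrt_of_sq_le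
    rw [one_pow]
    exact (one_le_div (by linarith)).2 hap'
  have ht2 : t ^ 2 = (p : ℝ) / a := by
    rw [ht, Real.sq_sqrt]
    positivity
  have h1 : Real.log p = Real.log a + Real.log (t ^ 2) := by
    rw [ht2, Real.log_div (by linarith) (by linarith)]
    ring
  have h2 : Real.log (t ^ 2) ≤ 2 * (t - 1) := by
    rw [Real.log_pow]
    have := Real.log_le_sub_one_of_pos (by linarith : 0 < t)
    push_cast
    linarith
  rw [div_le_iff₀ (by linarith), h1]
  have h3 : 2 * (t - 1) ≤ (3 * t - 1) * Real.log a := by nlinarith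
  nlinarith

theorem tail32 (a y : ℕ) (ha : 1 ≤ a) (hay : a ≤ y) :
    ∑ n ∈ Ioc a y, 1 / ((n : ℝ) * Real.sqrt n) ≤ 2 / Real.sqrt a - 2 / Real.sqrt y := by
  induction y, hay using Nat.le_induction with
  | base => simp
  | succ y hy ih =>
    have hpos : (0 : ℝ) < y := by
      have : 0 < y := by omega
      exact_mod_cast this
    rw [sum_Ioc_succ_top hy]
    have hs : 0 < Real.sqrt (y : ℝ) := Real.sqrt_pos.2 hpos
    have hs2 : Real.sqrt (y : ℝ) ^ 2 = y := Real.sq_sqrt hpos.le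
    have ht : 0 < Real.sqrt ((y + 1 : ℕ) : ℝ) := Real.sqrt_pos.2 (by push_cast; linarith)
    have ht2 : Real.sqrt ((y + 1 : ℕ) : ℝ) ^ 2 = y + 1 := by
      rw [Real.sq_sqrt (by push_cast; linarith)]
      push_cast
      ring
    set s := Real.sqrt (y : ℝ) with hsd
    set t := Real.sqrt ((y + 1 : ℕ) : ℝ) with htd
    have hst : s < t := by
      rw [hsd, htd]
      apply Real.sqrt_lt_sqrt hpos.le
      push_cast
      linarith
    have key : 1 / (((y + 1 : ℕ) : ℝ) * t) ≤ 2 / s - 2 / t := by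
      have e1 : ((y + 1 : ℕ) : ℝ) = t ^ 2 := by rw [ht2]; push_cast; ring
      have e2 : t ^ 2 - s ^ 2 = 1 := by rw [ht2, hs2]; ring
      have e3 : 2 / s - 2 / t = 2 / (s * t * (t + s)) := by
        have : (t - s) * (t + s) = 1 := by linarith [e2, sq_sub_sq t s]
        field_simp
        linarith
      rw [e1, e3]
      rw [div_le_div_iff₀ (by positivity) (by positivity)]
      have : s * (t + s) ≤ t * (t + t) := mul_le_mul hst.le (by linarith) (by positivity) ht.le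
      nlinarith
    linarith

theorem xx_nonneg {B : ℝ} (hB : 0 ≤ B) (a L p : ℕ) : 0 ≤ xx B a L p := by
  unfold xx
  have h1 : 0 ≤ Real.log p := Real.log_natCast_nonneg p
  have h2 : 0 ≤ Real.log a := Real.log_natCast_nonneg a
  positivity

theorem first_part (a p : ℕ) (ha : 2 ≤ a) (hap : a ≤ p) :
    Real.log p / Real.log a * ((a : ℝ) / p) ≤ 3 * Real.sqrt a / Real.sqrt p := by
  have ha' : (2 : ℝ) ≤ a := by exact_mod_cast ha
  have hap' : (a : ℝ) ≤ p := by exact_mod_cast hap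
  have h1 := log_ratio a p ha hap
  have h2 : (0 : ℝ) ≤ (a : ℝ) / p := by positivity
  refine (mul_le_mul_of_nonneg_right h1 h2).trans (le_of_eq ?_)
  rw [Real.sqrt_div (by linarith)]
  have h3 : Real.sqrt (p : ℝ) * Real.sqrt p = p := Real.mul_self_sqrt (by linarith)
  have h4 : Real.sqrt (a : ℝ) * Real.sqrt a = a := Real.mul_self_sqrt (by linarith)
  have h5 : 0 < Real.sqrt (p : ℝ) := Real.sqrt_pos.2 (by linarith)
  have h6 : 0 < Real.sqrt (a : ℝ) := Real.sqrt_pos.2 (by linarith)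
  generalize Real.sqrt (p : ℝ) = s at *
  generalize Real.sqrt (a : ℝ) = t at *
  rw [← h3, ← h4]
  field_simp

theorem xx_le {B : ℝ} (hB : 0 ≤ B) (a L p y : ℕ) (ha : 2 ≤ a) (hap : a ≤ p) (hpy : p ≤ y) (hL : 0 < L)
    (hy : (a : ℝ) * Real.log y ≤ L * Real.log a) : xx B a L p ≤ 4 * B := by
  have ha' : (2 : ℝ) ≤ a := by exact_mod_cast ha
  have hap' : (a : ℝ) ≤ p := by exact_mod_cast hap
  have hL' : (0 : ℝ) < L := by exact_mod_cast hL
  have hla : 0 < Real.log a := Real.log_pos (by linarith)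
  have h1 := first_part a p ha hap
  have h2 : 3 * Real.sqrt a / Real.sqrt p ≤ 3 := by
    rw [div_le_iff₀ (Real.sqrt_pos.2 (by linarith))]
    have := Real.sqrt_le_sqrt hap'
    linarith
  have h3 : Real.log p / Real.log a * ((a : ℝ) / L) ≤ 1 := by
    rw [div_mul_div_comm, div_le_one (by positivity)]
    have h4 : Real.log p ≤ Real.log y :=
      Real.log_le_log (by linarith) (by exact_mod_cast hpy)
    nlinarith
  unfold xx
  have e : B * (Real.log p / Real.log a) * ((a : ℝ) / p + (a : ℝ) / L) =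
      B * (Real.log p / Real.log a * ((a : ℝ) / p) + Real.log p / Real.log a * ((a : ℝ) / L)) := by ring
  rw [e]
  nlinarith

theorem xx_sum : ∃ C : ℝ, 0 ≤ C ∧ ∀ (B : ℝ) (a L y : ℕ), 0 ≤ B → 2 ≤ a → a ≤ L → a ≤ y →
    (a : ℝ) * Real.log y ≤ L * Real.log a →
      ∑ p ∈ pg a y, xx B a L p / p ≤ B * C := by
  obtain ⟨C, hC⟩ := Pool.Agent.Helper923.HMertens.mertens_log
  have hC0 : 0 ≤ C := (abs_nonneg _).trans (hC 1 le_rfl)
  refine ⟨7 + 2 * C, by linarith, fun B a L y hB ha haL hay hy => ?_⟩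
  have ha' : (2 : ℝ) ≤ a := by exact_mod_cast ha
  have haL' : (a : ℝ) ≤ L := by exact_mod_cast haL
  have hay' : (a : ℝ) ≤ y := by exact_mod_cast hay
  have hl2 := Real.log_two_gt_d9
  have hla2 : Real.log 2 ≤ Real.log a := Real.log_le_log (by norm_num) ha'
  have hla : 0 < Real.log a := by linarith
  have h1 : ∀ p ∈ pg a y, xx B a L p / p ≤ B * (3 * Real.sqrt a * (1 / ((p : ℝ) * Real.sqrt p)) +
      (a : ℝ) / (L * Real.log a) * (Real.log p / p)) := by
    intro p hp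
    rw [mem_pg] at hp
    have hp0 : (0 : ℝ) < p := by exact_mod_cast hp.2.2.pos
    have h2 := first_part a p ha hp.1.le
    have h5 : 0 < Real.sqrt (p : ℝ) := Real.sqrt_pos.2 hp0
    have e1 : xx B a L p / p = B * (Real.log p / Real.log a * ((a : ℝ) / p) / p +
        Real.log p / Real.log a * ((a : ℝ) / L) / p) := by
      unfold xx
      ring
    rw [e1]
    apply mul_le_mul_of_nonneg_left _ hB
    apply add_le_add
    · refine (div_le_div_of_nonneg_right h2 hp0.le).trans (le_of_eq ?_)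
      field_simp
    · apply le_of_eq
      field_simp
  refine (sum_le_sum h1).trans ?_
  rw [← mul_sum]
  apply mul_le_mul_of_nonneg_left _ hB
  rw [sum_add_distrib, ← mul_sum, ← mul_sum]
  have h2 : ∑ p ∈ pg a y, 1 / ((p : ℝ) * Real.sqrt p) ≤ 2 / Real.sqrt a := by
    calc ∑ p ∈ pg a y, 1 / ((p : ℝ) * Real.sqrt p) ≤ ∑ p ∈ Ioc a y, 1 / ((p : ℝ) * Real.sqrt p) := by
          apply sum_le_sum_of_subset_of_nonneg (filter_subset _ _)
          intro i _ _
          positivity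
      _ ≤ 2 / Real.sqrt a - 2 / Real.sqrt y := tail32 a y (by omega) hay
      _ ≤ 2 / Real.sqrt a := by
          have : 0 ≤ 2 / Real.sqrt (y : ℝ) := by positivity
          linarith
  have h3 : 3 * Real.sqrt a * ∑ p ∈ pg a y, 1 / ((p : ℝ) * Real.sqrt p) ≤ 6 := by
    have h6 : 0 < Real.sqrt (a : ℝ) := Real.sqrt_pos.2 (by linarith)
    calc 3 * Real.sqrt a * ∑ p ∈ pg a y, 1 / ((p : ℝ) * Real.sqrt p)
        ≤ 3 * Real.sqrt a * (2 / Real.sqrt a) := mul_le_mul_of_nonneg_left h2 (by positivity)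
      _ = 6 := by field_simp; norm_num
  have h4 : ∑ p ∈ pg a y, Real.log p / p ≤ Real.log y + C := by
    have h5 := (abs_le.1 (hC y (by omega))).2
    have h6 : ∑ p ∈ pg a y, Real.log p / (p : ℝ) ≤
        ∑ p ∈ (Finset.Icc 1 y).filter Nat.Prime, Real.log p / (p : ℝ) := by
      apply sum_le_sum_of_subset_of_nonneg
      · intro p hp
        rw [mem_pg] at hp
        rw [mem_filter, mem_Icc]
        exact ⟨⟨hp.2.2.one_lt.le, hp.2.1⟩, hp.2.2⟩
      · intro i _ _
        exact div_nonneg (Real.log_natCast_nonneg i) (Nat.cast_nonneg i)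
    linarith
  have h5 : (a : ℝ) / (L * Real.log a) * ∑ p ∈ pg a y, Real.log p / p ≤ 1 + 2 * C := by
    have hL0 : (0 : ℝ) < L := by linarith
    calc (a : ℝ) / (L * Real.log a) * ∑ p ∈ pg a y, Real.log p / p
        ≤ (a : ℝ) / (L * Real.log a) * (Real.log y + C) :=
          mul_le_mul_of_nonneg_left h4 (by positivity)
      _ = ((a : ℝ) * Real.log y) / (L * Real.log a) + C * ((a : ℝ) / (L * Real.log a)) := by ring
      _ ≤ 1 + C * 2 := by
          apply add_le_add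
          · rw [div_le_one (by positivity)]
            exact hy
          · apply mul_le_mul_of_nonneg_left _ hC0
            rw [div_le_iff₀ (by positivity)]
            nlinarith
      _ = 1 + 2 * C := by ring
  linarith

/-- the products for the moments of negative and of positive order -/
noncomputable def Pp (B : ℝ) (a L y : ℕ) : ℝ := ∏ p ∈ pg a y, (1 - (1 + xx B a L p) / (p : ℝ))⁻¹

noncomputable def Pm (B : ℝ) (a L y : ℕ) : ℝ := ∏ p ∈ pg a y, (1 - (1 - xx B a L p) / (p : ℝ))⁻¹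

theorem fac_p {q x : ℝ} (hq : 3 ≤ q) (h0 : 0 ≤ x) (h1 : x ≤ 1) :
    0 < 1 - (1 + x) / q ∧ (1 - (1 + x) / q)⁻¹ ≤ Real.exp (3 * (x / q)) * (1 - 1 / q)⁻¹ := by
  have hq0 : 0 < q := by linarith
  have h2 : (1 + x) / q ≤ 2 / 3 := by
    rw [div_le_div_iff₀ hq0 (by norm_num)]
    linarith
  have h3 : 0 < 1 - (1 + x) / q := by linarith
  have h4 : 1 / q ≤ (1 + x) / q := by
    apply div_le_div_of_nonneg_right _ hq0.le
    linarith
  have h5 : 0 < 1 - 1 / q := by linarith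
  refine ⟨h3, ?_⟩
  rw [inv_le_iff_one_le_mul₀ h3]
  have h6 := Real.add_one_le_exp (3 * (x / q))
  have h7 : (1 - 1 / q) ≤ Real.exp (3 * (x / q)) * (1 - (1 + x) / q) := by
    refine le_trans ?_ (mul_le_mul_of_nonneg_right h6 h3.le)
    have e : (1 + x) / q = 1 / q + x / q := by ring
    rw [e] at h2 ⊢
    have h8 : 0 ≤ x / q := by positivity
    nlinarith
  calc (1 : ℝ) = (1 - 1 / q) * (1 - 1 / q)⁻¹ := (mul_inv_cancel₀ h5.ne').symm
    _ ≤ (Real.exp (3 * (x / q)) * (1 - (1 + x) / q)) * (1 - 1 / q)⁻¹ :=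
        mul_le_mul_of_nonneg_right h7 (by positivity)
    _ = _ := by ring

theorem fac_p' {q x : ℝ} (hq : 3 ≤ q) (h0 : 0 ≤ x) (h1 : x ≤ 1) :
    (1 - 1 / q)⁻¹ ≤ (1 - (1 + x) / q)⁻¹ := by
  obtain ⟨h3, _⟩ := fac_p hq h0 h1
  apply inv_anti₀ h3
  have hq0 : 0 < q := by linarith
  have : 1 / q ≤ (1 + x) / q := by
    apply div_le_div_of_nonneg_right _ hq0.le
    linarith
  linarith

theorem fac_m {q x : ℝ} (hq : 3 ≤ q) (h0 : 0 ≤ x) (h1 : x ≤ 1) :
    0 < 1 - (1 - x) / q ∧ (1 - (1 - x) / q)⁻¹ ≤ (1 - 1 / q)⁻¹ ∧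
      Real.exp (-(3 * (x / q))) * (1 - 1 / q)⁻¹ ≤ (1 - (1 - x) / q)⁻¹ := by
  have hq0 : 0 < q := by linarith
  have h2 : 1 / q ≤ 1 / 3 := by
    rw [div_le_div_iff₀ hq0 (by norm_num)]
    linarith
  have h4 : (1 - x) / q ≤ 1 / q := by
    apply div_le_div_of_nonneg_right _ hq0.le
    linarith
  have h5 : 0 < 1 - 1 / q := by linarith
  have h3 : 0 < 1 - (1 - x) / q := by linarith
  refine ⟨h3, inv_anti₀ h5 (by linarith), ?_⟩
  have h6 := Real.add_one_le_exp (3 * (x / q))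
  have h8 : 0 ≤ x / q := by positivity
  have h7 : (1 - (1 - x) / q) ≤ Real.exp (3 * (x / q)) * (1 - 1 / q) := by
    refine le_trans ?_ (mul_le_mul_of_nonneg_right h6 h5.le)
    have e : (1 - x) / q = 1 / q - x / q := by ring
    rw [e]
    nlinarith
  rw [Real.exp_neg, ← mul_inv]
  exact inv_anti₀ h3 h7

/-- the bounds for the products -/
theorem PP_bounds : ∃ C : ℝ, 0 ≤ C ∧ ∀ (B : ℝ) (a L y : ℕ), 0 ≤ B → B ≤ 1 / 4 → 2 ≤ a → a ≤ L →
    a ≤ y → (a : ℝ) * Real.log y ≤ L * Real.log a →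
      VI a y ≤ Pp B a L y ∧ Pp B a L y ≤ Real.exp (B * C) * VI a y ∧
      Real.exp (-(B * C)) * VI a y ≤ Pm B a L y ∧ Pm B a L y ≤ VI a y := by
  obtain ⟨C, hC0, hC⟩ := xx_sum
  refine ⟨3 * C, by positivity, fun B a L y hB hB4 ha haL hay hy => ?_⟩
  have hs := hC B a L y hB ha haL hay hy
  have hx : ∀ p ∈ pg a y, (3 : ℝ) ≤ p ∧ 0 ≤ xx B a L p ∧ xx B a L p ≤ 1 := by
    intro p hp
    rw [mem_pg] at hp
    refine ⟨?_, xx_nonneg hB a L p, ?_⟩
    · have : 3 ≤ p := by omega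
      exact_mod_cast this
    · have := xx_le hB a L p y ha hp.1.le hp.2.1 (by omega) hy
      linarith
  have hV0 : ∀ p ∈ pg a y, (0 : ℝ) ≤ (1 - 1 / (p : ℝ))⁻¹ := by
    intro p hp
    have h3 := (hx p hp).1
    have : 1 / (p : ℝ) ≤ 1 / 3 := by
      rw [div_le_div_iff₀ (by linarith) (by norm_num)]
      linarith
    rw [inv_nonneg]
    linarith
  have hVI : 0 ≤ VI a y := prod_nonneg hV0
  refine ⟨?_, ?_, ?_, ?_⟩
  · apply prod_le_prod hV0
    intro p hp
    obtain ⟨h1, h2, h3⟩ := hx p hp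
    exact fac_p' h1 h2 h3
  · have h1 : Pp B a L y ≤ ∏ p ∈ pg a y, (Real.exp (3 * (xx B a L p / p)) * (1 - 1 / (p : ℝ))⁻¹) := by
      apply prod_le_prod
      · intro p hp
        obtain ⟨h1, h2, h3⟩ := hx p hp
        rw [inv_nonneg]
        exact (fac_p h1 h2 h3).1.le
      · intro p hp
        obtain ⟨h1, h2, h3⟩ := hx p hp
        exact (fac_p h1 h2 h3).2
    refine h1.trans ?_
    rw [prod_mul_distrib, ← Real.exp_sum, ← mul_sum]
    apply mul_le_mul_of_nonneg_right _ hVI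
    apply Real.exp_le_exp.2
    linarith
  · have h1 : ∏ p ∈ pg a y, (Real.exp (-(3 * (xx B a L p / p))) * (1 - 1 / (p : ℝ))⁻¹) ≤
        Pm B a L y := by
      apply prod_le_prod
      · intro p hp
        exact mul_nonneg (Real.exp_pos _).le (hV0 p hp)
      · intro p hp
        obtain ⟨h1, h2, h3⟩ := hx p hp
        exact (fac_m h1 h2 h3).2.2
    refine le_trans ?_ h1
    rw [prod_mul_distrib, ← Real.exp_sum, sum_neg_distrib, ← mul_sum]
    apply mul_le_mul_of_nonneg_right _ hVI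
    apply Real.exp_le_exp.2
    linarith
  · apply prod_le_prod
    · intro p hp
      obtain ⟨h1, h2, h3⟩ := hx p hp
      rw [inv_nonneg]
      exact (fac_m h1 h2 h3).1.le
    · intro p hp
      obtain ⟨h1, h2, h3⟩ := hx p hp
      exact (fac_m h1 h2 h3).2.1

end Pool.Agent.D0H36.BW
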