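import Pool.Agent.D0H36.BW.DetA
import Pool.Agent.D0H36.BW.Prod
import Pool.Agent.H20R2.EN.FLem

/-! The fundamental lemma in ALL intervals. -/

set_option autoImplicit false

open Finset Filter

namespace Pool.Agent.D0H36.BW

/-- the density of the integers free of primes `≤ a` -/
noncomputable def V (a : ℕ) : ℝ := ∏ p ∈ pg 1 a, (1 - 1 / (p : ℝ))

theorem V_mul_VI (a z : ℕ) (haz : a ≤ z) : V z * VI a z = V a := by
  have h1 : pg 1 z = pg 1 a ∪ pg a z := by
    ext p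
    rw [mem_union, mem_pg, mem_pg, mem_pg]
    constructor
    · rintro ⟨h1, h2, h3⟩
      by_cases h : p ≤ a
      · exact Or.inl ⟨h1, h, h3⟩
      · exact Or.inr ⟨by omega, h2, h3⟩
    · rintro (⟨h1, h2, h3⟩ | ⟨h1, h2, h3⟩)
      · exact ⟨h1, by omega, h3⟩
      · exact ⟨h3.one_lt, h2, h3⟩
  have h2 : Disjoint (pg 1 a) (pg a z) := by
    rw [disjoint_left]
    intro p hp hp'
    rw [mem_pg] at hp hp'
    omega
  unfold V VI
  rw [h1, prod_union h2, mul_assoc, ← prod_mul_distrib]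
  have h3 : ∏ p ∈ pg a z, (1 - 1 / (p : ℝ)) * (1 - 1 / (p : ℝ))⁻¹ = 1 := by
    apply prod_eq_one
    intro p hp
    rw [mem_pg] at hp
    have := (u_le hp.2.2).2
    exact mul_inv_cancel₀ (by linarith)
  rw [h3, mul_one]

theorem V_pos (a : ℕ) : 0 < V a := by
  apply prod_pos
  intro p hp
  rw [mem_pg] at hp
  have := (u_le hp.2.2).2
  linarith

theorem V_bounds : ∃ c C : ℝ, 0 < c ∧ 0 < C ∧ ∀ a : ℕ, 2 ≤ a →
    c / Real.log a ≤ V a ∧ V a ≤ C / Real.log a := by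
  obtain ⟨c3, C3, hc3, hC3, hV⟩ := VI_bounds
  have hl2 : (1 / 2 : ℝ) < Real.log 2 := by have := Real.log_two_gt_d9; linarith
  have hV2 : V 2 = 1 / 2 := by
    have : pg 1 2 = {2} := by
      ext p
      rw [mem_pg, mem_singleton]
      constructor
      · rintro ⟨h1, h2, _⟩; omega
      · rintro rfl; exact ⟨by norm_num, le_rfl, Nat.prime_two⟩
    unfold V
    rw [this, prod_singleton]
    norm_num
  have hC30 : 0 < C3 := by linarith
  refine ⟨Real.log 2 / (2 * C3), Real.log 2 / (2 * c3), by positivity, by positivity, fun a ha => ?_⟩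
  have ha2 : (2 : ℝ) ≤ a := by exact_mod_cast ha
  have hla : 0 < Real.log a := Real.log_pos (by linarith)
  have h1 := V_mul_VI 2 a ha
  rw [hV2] at h1
  obtain ⟨h2, h3⟩ := hV 2 a le_rfl ha
  have hVI0 : 0 < VI 2 a := lt_of_lt_of_le (by positivity) h2
  have h4 : V a = 1 / 2 / VI 2 a := by
    rw [eq_div_iff hVI0.ne']
    exact h1
  push_cast at h2 h3
  constructor
  · rw [h4]
    rw [div_div, div_le_div_iff₀ (by positivity) hVI0]
    have h5 : Real.log 2 * VI 2 a ≤ C3 * Real.log a := by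
      have := mul_le_mul_of_nonneg_left h3 (by linarith : 0 ≤ Real.log 2)
      calc Real.log 2 * VI 2 a ≤ Real.log 2 * (C3 * (Real.log a / Real.log 2)) := this
        _ = C3 * Real.log a := by field_simp
    nlinarith
  · rw [h4]
    rw [div_div, div_div, div_le_div_iff₀ (by positivity) (by positivity)]
    have h5 : c3 * Real.log a ≤ Real.log 2 * VI 2 a := by
      have := mul_le_mul_of_nonneg_left h2 (by linarith : 0 ≤ Real.log 2)
      calc c3 * Real.log a = Real.log 2 * (c3 * (Real.log a / Real.log 2)) := by field_simp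
        _ ≤ _ := this
    nlinarith

theorem memf {α : Type} {q : α → Prop} (inst : DecidablePred q) (s : Finset α) (x : α) :
    x ∈ @Finset.filter α q inst s ↔ x ∈ s ∧ q x := mem_filter

theorem incl (P0 : Finset ℕ) : (∀ p ∈ P0, p.Prime) → ∀ D : ℕ, 0 < D →
    (∀ p ∈ P0, ¬ p ∣ D) → ∀ L n : ℕ,
    |(((Icc 1 L).filter (fun h => (∀ p ∈ P0, ¬ p ∣ n + h) ∧ D ∣ n + h)).card : ℝ) -
      (L : ℝ) / D * ∏ p ∈ P0, (1 - 1 / (p : ℝ))| ≤ 2 ^ P0.card := by
  classical
  induction P0 using Finset.induction_on with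
  | empty =>
    intro _ D hD _ L n
    have h1 := cnt_dvd L D n hD
    rw [prod_empty, mul_one, card_empty, pow_zero]
    have h2 : (Icc 1 L).filter (fun h => (∀ p ∈ (∅ : Finset ℕ), ¬ p ∣ n + h) ∧ D ∣ n + h) =
        (Icc 1 L).filter (fun h => D ∣ n + h) := by
      ext h
      rw [mem_filter, mem_filter]
      simp
    rw [h2]
    exact h1
  | insert q P0 hq ih =>
    intro hP D hD hDP L n
    have hqp : q.Prime := hP q (mem_insert_self _ _)
    have hP' : ∀ p ∈ P0, p.Prime := fun p hp => hP p (mem_insert_of_mem hp)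
    have hqD : ¬ q ∣ D := hDP q (mem_insert_self _ _)
    have hq0 : (0 : ℝ) < q := by exact_mod_cast hqp.pos
    have hD0 : (0 : ℝ) < D := by exact_mod_cast hD
    have h1 := ih hP' D hD (fun p hp => hDP p (mem_insert_of_mem hp)) L n
    have h2 := ih hP' (D * q) (Nat.mul_pos hD hqp.pos) (by
      intro p hp hd
      rcases (hP' p hp).dvd_mul.1 hd with h | h
      · exact hDP p (mem_insert_of_mem hp) h
      · rw [(Nat.prime_dvd_prime_iff_eq (hP' p hp) hqp).1 h] at hp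
        exact hq hp) L n
    have h3 : (Icc 1 L).filter (fun h => (∀ p ∈ P0, ¬ p ∣ n + h) ∧ D ∣ n + h) =
        (Icc 1 L).filter (fun h => (∀ p ∈ insert q P0, ¬ p ∣ n + h) ∧ D ∣ n + h) ∪
        (Icc 1 L).filter (fun h => (∀ p ∈ P0, ¬ p ∣ n + h) ∧ D * q ∣ n + h) := by
      ext h
      rw [mem_union, mem_filter, mem_filter, mem_filter]
      constructor
      · rintro ⟨g1, g2, g3⟩
        by_cases g4 : q ∣ n + h
        · exact Or.inr ⟨g1, g2, Nat.Coprime.mul_dvd_of_dvd_of_dvd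
            ((Nat.Prime.coprime_iff_not_dvd hqp).2 hqD).symm g3 g4⟩
        · refine Or.inl ⟨g1, fun p hp => ?_, g3⟩
          rcases mem_insert.1 hp with rfl | hp
          · exact g4
          · exact g2 p hp
      · rintro (⟨g1, g2, g3⟩ | ⟨g1, g2, g3⟩)
        · exact ⟨g1, fun p hp => g2 p (mem_insert_of_mem hp), g3⟩
        · exact ⟨g1, g2, (dvd_mul_right D q).trans g3⟩
    have h4 : Disjoint ((Icc 1 L).filter (fun h => (∀ p ∈ insert q P0, ¬ p ∣ n + h) ∧ D ∣ n + h))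
        ((Icc 1 L).filter (fun h => (∀ p ∈ P0, ¬ p ∣ n + h) ∧ D * q ∣ n + h)) := by
      rw [disjoint_left]
      intro h g1 g2
      rw [mem_filter] at g1 g2
      exact g1.2.1 q (mem_insert_self _ _) ((dvd_mul_left q D).trans g2.2.2)
    have h5 := card_union_of_disjoint h4
    rw [← h3] at h5
    have h6 : (((Icc 1 L).filter (fun h => (∀ p ∈ P0, ¬ p ∣ n + h) ∧ D ∣ n + h)).card : ℝ) =
        (((Icc 1 L).filter (fun h => (∀ p ∈ insert q P0, ¬ p ∣ n + h) ∧ D ∣ n + h)).card : ℝ) +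
        (((Icc 1 L).filter (fun h => (∀ p ∈ P0, ¬ p ∣ n + h) ∧ D * q ∣ n + h)).card : ℝ) := by
      exact_mod_cast h5
    rw [prod_insert hq, card_insert_of_notMem hq, pow_succ]
    have e : (L : ℝ) / D * ((1 - 1 / (q : ℝ)) * ∏ p ∈ P0, (1 - 1 / (p : ℝ))) =
        (L : ℝ) / D * ∏ p ∈ P0, (1 - 1 / (p : ℝ)) -
        (L : ℝ) / ((D * q : ℕ) : ℝ) * ∏ p ∈ P0, (1 - 1 / (p : ℝ)) := by
      push_cast
      field_simp
    rw [e]
    have g1 := abs_le.1 h1
    have g2 := abs_le.1 h2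
    rw [abs_le]
    constructor <;> linarith

theorem exJ' (a : ℕ) (ha : 2 ≤ a) : ∃ J : ℕ, a ≤ 2 ^ 2 ^ J ∧ 2 ^ 2 ^ J ≤ a ^ 2 := by
  have hex : ∃ J : ℕ, a ≤ 2 ^ 2 ^ J := by
    refine ⟨a, ?_⟩
    have h1 : a < 2 ^ a := Nat.lt_two_pow_self
    have h2 : 2 ^ a < 2 ^ 2 ^ a := Nat.lt_two_pow_self
    omega
  classical
  refine ⟨Nat.find hex, Nat.find_spec hex, ?_⟩
  rcases Nat.eq_zero_or_pos (Nat.find hex) with h | h
  · rw [h]
    norm_num
    nlinarith
  · have h1 := Nat.find_min hex (Nat.sub_lt h one_pos)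
    push Not at h1
    have h2 : Nat.find hex = (Nat.find hex - 1) + 1 := by omega
    have h3 : 2 ^ 2 ^ Nat.find hex = (2 ^ 2 ^ (Nat.find hex - 1)) ^ 2 := by
      rw [← pow_mul, ← pow_succ]
      congr 2
    rw [h3]
    exact Nat.pow_le_pow_left h1.le 2

/-- **the fundamental lemma in all intervals** -/
theorem fl_int (ε : ℝ) (hε : 0 < ε) : ∃ s : ℕ, 1 ≤ s ∧ ∃ L0 : ℕ, ∀ L : ℕ, L0 ≤ L → ∀ a : ℕ, 2 ≤ a →
    (a : ℝ) ^ s ≤ L → ∀ n : ℕ, |((sv a L n).card : ℝ) - L * V a| ≤ ε * (L * V a) := by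
  classical
  obtain ⟨C0, hC0, H⟩ := Pool.Agent.H20R2.fLem 1
  obtain ⟨c, C, hc, hC, hV⟩ := V_bounds
  obtain ⟨b0, hb0⟩ : ∃ b0 : ℕ, (1 / 2 : ℝ) ^ b0 ≤ ε / 2 := by
    obtain ⟨b0, hb0⟩ := exists_pow_lt_of_lt_one (by positivity : 0 < ε / 2) (by norm_num : (1 / 2 : ℝ) < 1)
    exact ⟨b0, hb0.le⟩
  set b := max b0 C0 with hb
  have hb1 : (1 / 2 : ℝ) ^ b ≤ ε / 2 :=
    (pow_le_pow_of_le_one (by norm_num) (by norm_num) (le_max_left _ _)).trans hb0
  have hbC : C0 ≤ b := le_max_right _ _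
  set K : ℝ := 2 * 2 ^ C0 / (ε * c) with hK
  have hK0 : 0 < K := by positivity
  refine ⟨2 * (C0 * b) + 4, by omega, ⌈K ^ (2 * (C0 * b) + 4)⌉₊, fun L hL a ha haL n => ?_⟩
  have ha2 : (2 : ℝ) ≤ a := by exact_mod_cast ha
  have hLr : (0 : ℝ) ≤ L := Nat.cast_nonneg L
  obtain ⟨J, hJ1, hJ2⟩ := exJ' a ha
  set P0 := (pg 1 a).filter (fun p => p ≤ C0) with hP0
  set P := (pg 1 a).filter (fun p => ¬ p ≤ C0) with hP
  have hP0p : ∀ p ∈ P0, p.Prime := by
    intro p hp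
    rw [hP0, mem_filter, mem_pg] at hp
    exact hp.1.2.2
  have hPp : ∀ p ∈ P, p.Prime := by
    intro p hp
    rw [hP, mem_filter, mem_pg] at hp
    exact hp.1.2.2
  have hP0c : P0.card ≤ C0 := by
    have h1 : P0 ⊆ Icc 1 C0 := by
      intro p hp
      rw [hP0, mem_filter, mem_pg] at hp
      rw [mem_Icc]
      exact ⟨hp.1.2.2.one_lt.le, hp.2⟩
    simpa using card_le_card h1
  set Ω := (Icc 1 L).filter (fun h => ∀ p ∈ P0, ¬ p ∣ n + h) with hΩ
  set A : ℝ := L * ∏ p ∈ P0, (1 - 1 / (p : ℝ)) with hA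
  have hA0 : 0 ≤ A := by
    apply mul_nonneg hLr
    apply prod_nonneg
    intro p hp
    have := (u_le (hP0p p hp)).2
    linarith
  have hmain := H b J C0 P (fun p => 1 / (p : ℝ)) hbC le_rfl (by
      intro p hp
      refine ⟨hPp p hp, ?_, ?_⟩
      · rw [hP, mem_filter] at hp
        omega
      · rw [hP, mem_filter, mem_pg] at hp
        exact hp.1.2.1.trans hJ1) (by
      intro p hp
      have hp2 : (2 : ℝ) ≤ p := by exact_mod_cast (hPp p hp).two_le
      refine ⟨by positivity, ?_⟩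
      push_cast
      exact one_div_le_one_div_of_le (by linarith) (by linarith))
    Ω (fun _ => 1) (fun p m => p ∣ n + m) A (fun _ => 2 ^ C0) (fun _ _ => zero_le_one) hA0 (by
      intro T hT _
      have hTp : ∀ p ∈ T, p.Prime := fun p hp => hPp p (hT hp)
      have hDpos : 0 < ∏ p ∈ T, p := prod_pos fun p hp => (hTp p hp).pos
      have h1 := incl P0 hP0p (∏ p ∈ T, p) hDpos (by
        intro p hp hd
        obtain ⟨q, hq, hpq⟩ := (Nat.Prime.prime (hP0p p hp)).exists_mem_finset_dvd hd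
        have h2 := (Nat.prime_dvd_prime_iff_eq (hP0p p hp) (hTp q hq)).1 hpq
        have h3 := hT hq
        rw [← h2, hP, mem_filter] at h3
        rw [hP0, mem_filter] at hp
        exact h3.2 hp.2) L n
      have h3 : A * ∏ p ∈ T, 1 / (p : ℝ) = (L : ℝ) / ((∏ p ∈ T, p : ℕ) : ℝ) * ∏ p ∈ P0, (1 - 1 / (p : ℝ)) := by
        rw [hA, Nat.cast_prod]
        simp only [one_div]
        rw [prod_inv_distrib]
        ring
      rw [h3, sum_const, nsmul_eq_mul, mul_one]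
      refine le_trans (le_of_eq ?_) (h1.trans (pow_le_pow_right₀ (by norm_num) hP0c))
      refine congrArg (fun s : Finset ℕ => |(s.card : ℝ) -
        (L : ℝ) / ((∏ p ∈ T, p : ℕ) : ℝ) * ∏ p ∈ P0, (1 - 1 / (p : ℝ))|) (Finset.ext fun h => ?_)
      refine Iff.trans (memf _ _ _) ?_
      rw [hΩ, mem_filter, mem_filter]
      constructor
      · rintro ⟨⟨g1, g2⟩, g3⟩
        refine ⟨g1, g2, ?_⟩
        exact Finset.prod_primes_dvd _ (fun p hp => (hTp p hp).prime) g3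
      · rintro ⟨g1, g2, g3⟩
        exact ⟨⟨g1, g2⟩, fun p hp => (dvd_prod_of_mem (fun p => p) hp).trans g3⟩)
  have h5 : ∀ h, (h ∈ Ω ∧ ∀ p ∈ P, ¬ p ∣ n + h) ↔ h ∈ sv a L n := by
    intro h
    rw [hΩ, mem_filter, mem_sv]
    constructor
    · rintro ⟨⟨g1, g2⟩, g3⟩
      refine ⟨g1, fun p hp hpp => ?_⟩
      rw [mem_Icc] at hp
      have hpg : p ∈ pg 1 a := (mem_pg 1 a p).2 ⟨hpp.one_lt, hp.2, hpp⟩
      by_cases hpc : p ≤ C0
      · exact g2 p (mem_filter.2 ⟨hpg, hpc⟩)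
      · exact g3 p (mem_filter.2 ⟨hpg, hpc⟩)
    · rintro ⟨g1, g2⟩
      have g3 : ∀ p ∈ pg 1 a, ¬ p ∣ n + h := by
        intro p hp
        rw [mem_pg] at hp
        exact g2 p (mem_Icc.2 ⟨hp.1.le, hp.2.1⟩) hp.2.2
      exact ⟨⟨g1, fun p hp => g3 p (mem_filter.1 hp).1⟩, fun p hp => g3 p (mem_filter.1 hp).1⟩
  have h6 : A * ∏ p ∈ P, (1 - 1 / (p : ℝ)) = L * V a := by
    rw [hA, mul_assoc]
    congr 1
    unfold V
    exact prod_filter_mul_prod_filter_not (pg 1 a) (fun p => p ≤ C0) _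
  rw [h6, sum_const, nsmul_eq_mul, mul_one] at hmain
  refine le_trans (le_of_eq ?_) (hmain.trans ?_)
  · refine congrArg (fun s : Finset ℕ => |(s.card : ℝ) - L * V a|) (Finset.ext fun h => ?_)
    exact (Iff.trans (memf _ _ _) (h5 h)).symm
  have hVa0 := V_pos a
  have hla : 0 < Real.log a := Real.log_pos (by linarith)
  have h13 : (1 / 2 : ℝ) ^ b * (L * V a) ≤ ε / 2 * (L * V a) :=
    mul_le_mul_of_nonneg_right hb1 (by positivity)
  have hsplit : ε * (L * V a) = ε / 2 * (L * V a) + ε / 2 * (L * V a) := by ring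
  rw [hsplit]
  refine add_le_add h13 ?_
  · rw [sum_const, nsmul_eq_mul]
    have h8 : ∀ F : Finset (Finset ℕ), (∀ T ∈ F, T ⊆ P ∧ ∏ p ∈ T, p ≤ (2 ^ 2 ^ J) ^ (C0 * b)) →
        (F.card : ℝ) ≤ ((a : ℝ) ^ 2) ^ (C0 * b) := by
      intro F hF
      apply cnt_prod P hPp _ (by positivity)
      intro T hT
      refine ⟨(hF T hT).1, ?_⟩
      have h9 : ∏ p ∈ T, p ≤ (a ^ 2) ^ (C0 * b) := (hF T hT).2.trans (Nat.pow_le_pow_left hJ2 _)
      exact_mod_cast h9
    have h9 : (J : ℝ) + 2 ≤ (a : ℝ) ^ 2 := by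
      have g1 : J < 2 ^ J := Nat.lt_two_pow_self
      have g2 : 2 ^ J < 2 ^ 2 ^ J := Nat.lt_two_pow_self
      have g3 : J + 2 ≤ a ^ 2 := by omega
      exact_mod_cast g3
    have h10 : (a : ℝ) * K ≤ (a : ℝ) ^ (2 * (C0 * b) + 4) ∨ (a : ℝ) ≤ K := by
      by_cases h : (a : ℝ) ≤ K
      · exact Or.inr h
      · left
        push Not at h
        calc (a : ℝ) * K ≤ a * a := mul_le_mul_of_nonneg_left h.le (by linarith)
          _ = (a : ℝ) ^ 2 := by ring
          _ ≤ (a : ℝ) ^ (2 * (C0 * b) + 4) := pow_le_pow_right₀ (by linarith) (by omega)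
    have h11 : K * (a : ℝ) ^ (2 * (C0 * b) + 3) ≤ L := by
      rcases le_or_gt (a : ℝ) K with h | h
      · have g1 : K ^ (2 * (C0 * b) + 4) ≤ L := by
          have := (Nat.le_ceil (K ^ (2 * (C0 * b) + 4))).trans (by exact_mod_cast hL : ((⌈K ^ (2 * (C0 * b) + 4)⌉₊ : ℕ) : ℝ) ≤ L)
          exact this
        calc K * (a : ℝ) ^ (2 * (C0 * b) + 3) ≤ K * K ^ (2 * (C0 * b) + 3) := by
              apply mul_le_mul_of_nonneg_left _ hK0.le
              exact pow_le_pow_left₀ (by linarith) h _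
          _ = K ^ (2 * (C0 * b) + 4) := by ring
          _ ≤ L := g1
      · calc K * (a : ℝ) ^ (2 * (C0 * b) + 3) ≤ a * (a : ℝ) ^ (2 * (C0 * b) + 3) := by
              apply mul_le_mul_of_nonneg_right h.le (by positivity)
          _ = (a : ℝ) ^ (2 * (C0 * b) + 4) := by ring
          _ ≤ L := haL
    have h12 : c / a ≤ V a := by
      refine le_trans ?_ (hV a ha).1
      apply div_le_div_of_nonneg_left hc.le hla
      have := Real.log_le_sub_one_of_pos (by linarith : (0 : ℝ) < a)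
      linarith
    refine le_trans (mul_le_mul h9 (mul_le_mul_of_nonneg_right (h8 _ fun T hT => by
      rw [mem_filter, mem_powerset] at hT
      exact hT) (by positivity)) (by positivity) (by positivity)) ?_
    calc (a : ℝ) ^ 2 * (((a : ℝ) ^ 2) ^ (C0 * b) * (2 : ℝ) ^ C0)
        = (ε / 2) * ((K * (a : ℝ) ^ (2 * (C0 * b) + 3)) * (c / a)) := by
          rw [hK]
          field_simp
          ring
      _ ≤ (ε / 2) * (L * V a) := by
          apply mul_le_mul_of_nonneg_left _ (by positivity)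
          apply mul_le_mul h11 h12 (by positivity) hLr

end Pool.Agent.D0H36.BW
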