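import Mathlib

/-! The supremum of a weight of level `Q` is at most `Q ^ 2` times the mean of its absolute value. -/

set_option autoImplicit false

open Finset

namespace Pool.Agent.D0H36.BW

/-- the weight `w(n) = ∑_{d ≤ Q} c_d(n mod d)` -/
noncomputable def wt (Q : ℕ) (c : ℕ → ℕ → ℝ) (n : ℕ) : ℝ := ∑ d ∈ Icc 1 Q, c d (n % d)

/-- the possible frequencies -/
noncomputable def fr (M Q : ℕ) [NeZero M] : Finset (ZMod M) :=
  (Set.toFinite {k : ZMod M | ∃ d ∈ Icc 1 Q, (d : ZMod M) * k = 0}).toFinset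

theorem mem_fr (M Q : ℕ) [NeZero M] (k : ZMod M) :
    k ∈ fr M Q ↔ ∃ d ∈ Icc 1 Q, (d : ZMod M) * k = 0 := by
  unfold fr
  rw [Set.Finite.mem_toFinset, Set.mem_setOf_eq]

theorem supp_card (M Q : ℕ) [NeZero M] : (fr M Q).card ≤ Q ^ 2 := by
  classical
  have h1 : fr M Q ⊆
      (Icc 1 Q).biUnion (fun d => (univ : Finset (ZMod M)).filter (fun k => d • k = 0)) := by
    intro k hk
    rw [mem_fr] at hk
    obtain ⟨d, hd, hk⟩ := hk
    rw [mem_biUnion]
    refine ⟨d, hd, ?_⟩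
    rw [mem_filter]
    refine ⟨mem_univ _, ?_⟩
    rw [nsmul_eq_mul]
    exact hk
  refine (card_le_card h1).trans (card_biUnion_le.trans ?_)
  calc ∑ d ∈ Icc 1 Q, ((univ : Finset (ZMod M)).filter (fun k => d • k = 0)).card
      ≤ ∑ d ∈ Icc 1 Q, Q := by
        apply sum_le_sum
        intro d hd
        rw [mem_Icc] at hd
        exact (IsAddCyclic.card_nsmul_eq_zero_le (by omega)).trans hd.2
    _ = Q ^ 2 := by rw [sum_const, Nat.card_Icc, smul_eq_mul]; simp; ring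

theorem dual_zero {M : ℕ} [NeZero M] (d : ℕ) (f : ZMod M → ℂ) (hf : ∀ x, f (x + d) = f x) (k : ZMod M)
    (hk : (d : ZMod M) * k ≠ 0) : ∑ j, ZMod.stdAddChar (-(j * k)) * f j = 0 := by
  set S := ∑ j, ZMod.stdAddChar (-(j * k)) * f j with hS
  have h1 : S = ZMod.stdAddChar (-((d : ZMod M) * k)) * S := by
    rw [hS, mul_sum]
    symm
    apply Fintype.sum_equiv (Equiv.addRight (d : ZMod M))
    intro j
    rw [Equiv.coe_addRight, hf, ← mul_assoc, ← AddChar.map_add_eq_mul]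
    congr 2
    ring
  have h2 : ZMod.stdAddChar (-((d : ZMod M) * k)) ≠ (1 : ℂ) := by
    intro h
    have h3 : ZMod.stdAddChar (-((d : ZMod M) * k)) = ZMod.stdAddChar (0 : ZMod M) := by
      rw [h, AddChar.map_zero_eq_one]
    have := ZMod.injective_stdAddChar h3
    exact hk (neg_eq_zero.1 this)
  have h3 : (1 - ZMod.stdAddChar (-((d : ZMod M) * k))) * S = 0 := by
    rw [sub_mul, one_mul, ← h1, sub_self]
  rcases mul_eq_zero.1 h3 with h | h
  · exact absurd (sub_eq_zero.1 h).symm h2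
  · exact h

theorem inversion {M : ℕ} [NeZero M] (f : ZMod M → ℂ) (x : ZMod M) :
    ∑ k, ZMod.stdAddChar (k * x) * ∑ j, ZMod.stdAddChar (-(j * k)) * f j = M * f x := by
  have h1 : ∑ k, ZMod.stdAddChar (k * x) * ∑ j, ZMod.stdAddChar (-(j * k)) * f j =
      ∑ j, f j * ∑ k : ZMod M, ZMod.stdAddChar (k * (x - j)) := by
    simp_rw [mul_sum]
    rw [sum_comm]
    apply sum_congr rfl
    intro j _
    apply sum_congr rfl
    intro k _
    rw [← mul_assoc, ← AddChar.map_add_eq_mul, mul_comm (f j)]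
    congr 2
    ring
  rw [h1]
  have h2 : ∀ j : ZMod M, ∑ k : ZMod M, ZMod.stdAddChar (k * (x - j)) =
      if x - j = 0 then (M : ℂ) else 0 := by
    intro j
    rw [AddChar.sum_mulShift (x - j) (ZMod.isPrimitive_stdAddChar M), ZMod.card]
    split_ifs <;> simp
  simp_rw [h2]
  rw [sum_eq_single x]
  · simp [mul_comm]
  · intro j _ hj
    rw [if_neg (sub_ne_zero.2 (Ne.symm hj)), mul_zero]
  · intro h
    exact absurd (mem_univ x) h

theorem sum_val {M : ℕ} [NeZero M] (f : ℕ → ℝ) : ∑ x : ZMod M, f x.val = ∑ n ∈ range M, f n := by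
  apply sum_nbij (fun x : ZMod M => x.val)
  · intro x _
    rw [mem_range]
    exact ZMod.val_lt x
  · intro x _ y _ h
    exact ZMod.val_injective M h
  · intro n hn
    rw [mem_coe, mem_range] at hn
    exact ⟨(n : ZMod M), by simp, by simpa using ZMod.val_natCast_of_lt hn⟩
  · intro x _
    rfl

theorem wt_le (Q M : ℕ) (c : ℕ → ℕ → ℝ) (hM : 0 < M) (hd : ∀ d ∈ Icc 1 Q, d ∣ M) (n : ℕ) :
    |wt Q c n| * M ≤ (Q : ℝ) ^ 2 * ∑ m ∈ range M, |wt Q c m| := by
  classical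
  have : NeZero M := ⟨hM.ne'⟩
  set f : ZMod M → ℂ := fun x => ((wt Q c x.val : ℝ) : ℂ) with hf
  set g : ℕ → ZMod M → ℂ := fun d x => ((c d (x.val % d) : ℝ) : ℂ) with hg
  have hfg : ∀ x, f x = ∑ d ∈ Icc 1 Q, g d x := by
    intro x
    rw [hf, hg]
    simp only [wt]
    push_cast
    rfl
  have hgd : ∀ d ∈ Icc 1 Q, ∀ x, g d (x + d) = g d x := by
    intro d hdQ x
    rw [hg]
    simp only
    have hdM := hd d hdQ
    have h1 : (x + (d : ZMod M)).val % d = x.val % d := by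
      rw [ZMod.val_add, Nat.mod_mod_of_dvd _ hdM, ZMod.val_natCast, Nat.add_mod,
        Nat.mod_mod_of_dvd _ hdM, Nat.mod_self, add_zero, Nat.mod_mod]
    rw [h1]
  have hF : ∀ k : ZMod M, (¬ ∃ d ∈ Icc 1 Q, (d : ZMod M) * k = 0) →
      ∑ j, ZMod.stdAddChar (-(j * k)) * f j = 0 := by
    intro k hk
    push Not at hk
    have h1 : ∑ j, ZMod.stdAddChar (-(j * k)) * f j =
        ∑ d ∈ Icc 1 Q, ∑ j, ZMod.stdAddChar (-(j * k)) * g d j := by
      rw [sum_comm]
      apply sum_congr rfl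
      intro j _
      rw [hfg, mul_sum]
    rw [h1]
    apply sum_eq_zero
    intro d hdQ
    exact dual_zero d (g d) (hgd d hdQ) k (hk d hdQ)
  have hnorm : ∀ k : ZMod M, ‖∑ j, ZMod.stdAddChar (-(j * k)) * f j‖ ≤ ∑ m ∈ range M, |wt Q c m| := by
    intro k
    rw [← sum_val (M := M) (fun m => |wt Q c m|)]
    refine (norm_sum_le _ _).trans (sum_le_sum fun j _ => ?_)
    rw [norm_mul, AddChar.norm_apply, one_mul, hf]
    simp
  have hx : wt Q c ((n : ZMod M)).val = wt Q c n := by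
    unfold wt
    apply sum_congr rfl
    intro d hdQ
    rw [ZMod.val_natCast, Nat.mod_mod_of_dvd _ (hd d hdQ)]
  have hinv := inversion f (n : ZMod M)
  have h1 : ‖(M : ℂ) * f (n : ZMod M)‖ = |wt Q c n| * M := by
    rw [norm_mul, hf]
    simp only [hx]
    simp [mul_comm]
  rw [← h1, ← hinv]
  have h2 : ∑ k, ZMod.stdAddChar (k * (n : ZMod M)) * ∑ j, ZMod.stdAddChar (-(j * k)) * f j =
      ∑ k ∈ fr M Q,
        ZMod.stdAddChar (k * (n : ZMod M)) * ∑ j, ZMod.stdAddChar (-(j * k)) * f j := by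
    symm
    apply sum_subset (subset_univ _)
    intro k _ hk
    rw [mem_fr] at hk
    rw [hF k hk, mul_zero]
  rw [h2]
  refine (norm_sum_le _ _).trans ?_
  have hT : 0 ≤ ∑ m ∈ range M, |wt Q c m| := sum_nonneg fun m _ => abs_nonneg _
  calc ∑ k ∈ fr M Q,
        ‖ZMod.stdAddChar (k * (n : ZMod M)) * ∑ j, ZMod.stdAddChar (-(j * k)) * f j‖
      ≤ ∑ k ∈ fr M Q,
        ∑ m ∈ range M, |wt Q c m| := by
        apply sum_le_sum
        intro k _
        rw [norm_mul, AddChar.norm_apply, one_mul]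
        exact hnorm k
    _ = ((fr M Q).card : ℝ) * ∑ m ∈ range M, |wt Q c m| := by
        rw [sum_const, nsmul_eq_mul]
    _ ≤ (Q : ℝ) ^ 2 * ∑ m ∈ range M, |wt Q c m| := by
        apply mul_le_mul_of_nonneg_right _ hT
        exact_mod_cast supp_card M Q

end Pool.Agent.D0H36.BW
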