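import Pool.Agent.D0H36.BW.Step
import Pool.Agent.D0H36.BW.Prod

/-! Large deviations of the number of survivors of the primes in `(a, z]`. -/

set_option autoImplicit false

open Finset

namespace Pool.Agent.D0H36.BW

theorem moment_lo (B κ : ℝ) (a L z M : ℕ) (hB : 0 ≤ B) (hB4 : B ≤ 1 / 4) (hκ : 0 ≤ κ) (ha : 2 ≤ a)
    (haL : a ≤ L) (hy : (a : ℝ) * Real.log z ≤ L * Real.log a)
    (hM : ∀ q : ℕ, q.Prime → q ≤ z → q ∣ M)
    (hP : ∀ y, a ≤ y → y ≤ z → 0 ≤ Pp B a L y ∧ κ * Pp B a L y ≤ B * (Real.log y / Real.log a))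
    (y : ℕ) (hay : a ≤ y) : y ≤ z →
    ∑ n ∈ range M, Real.exp (-(κ * ((a : ℝ) / L) * Pp B a L y * (sv y L n).card)) ≤
      ∑ n ∈ range M, Real.exp (-(κ * ((a : ℝ) / L) * (sv a L n).card)) := by
  induction y, hay using Nat.le_induction with
  | base =>
    intro _
    have : Pp B a L a = 1 := by
      unfold Pp
      rw [pg_self, prod_empty]
    rw [this, mul_one]
  | succ y hy' ih =>
    intro hyz
    refine le_trans ?_ (ih (by omega))
    by_cases hp : (y + 1).Prime
    · have hL0 : (0 : ℝ) < L := by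
        have : 0 < L := by omega
        exact_mod_cast this
      have ha0 : (0 : ℝ) < a := by
        have : 0 < a := by omega
        exact_mod_cast this
      obtain ⟨hP0, hP1⟩ := hP (y + 1) (by omega) hyz
      have hx1 : xx B a L (y + 1) ≤ 1 := by
        have := xx_le hB a L (y + 1) z ha (by omega) hyz (by omega) hy
        linarith
      have hx0 := xx_nonneg hB a L (y + 1)
      have h3 : (3 : ℝ) ≤ ((y + 1 : ℕ) : ℝ) := by
        have : 3 ≤ y + 1 := by omega
        exact_mod_cast this
      obtain ⟨hf, _⟩ := fac_p h3 hx0 hx1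
      have hq0 : (0 : ℝ) < ((y + 1 : ℕ) : ℝ) := by linarith
      have hx : κ * ((a : ℝ) / L) * Pp B a L (y + 1) * ((L : ℝ) / ((y + 1 : ℕ) : ℝ) + 1) ≤
          xx B a L (y + 1) := by
        have e : κ * ((a : ℝ) / L) * Pp B a L (y + 1) * ((L : ℝ) / ((y + 1 : ℕ) : ℝ) + 1) =
            (κ * Pp B a L (y + 1)) * ((a : ℝ) / ((y + 1 : ℕ) : ℝ) + (a : ℝ) / L) := by
          field_simp
        rw [e]
        unfold xx
        exact mul_le_mul_of_nonneg_right hP1 (by positivity)
      have h4 := step_lo y L M hp (fun q hq hqy => hM q hq (hqy.trans hyz))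
        (κ * ((a : ℝ) / L) * Pp B a L (y + 1)) (xx B a L (y + 1)) (by positivity) hx hx1
      refine h4.trans (le_of_eq ?_)
      have h5 : Pp B a L (y + 1) * (1 - (1 + xx B a L (y + 1)) / ((y + 1 : ℕ) : ℝ)) = Pp B a L y := by
        unfold Pp
        rw [pg_pr a y hy' hp]
        rw [mul_assoc, inv_mul_cancel₀ hf.ne', mul_one]
      apply sum_congr rfl
      intro n _
      rw [← h5]
      congr 2
      ring
    · apply le_of_eq
      apply sum_congr rfl
      intro n _
      rw [sv_np y L n hp]
      have : Pp B a L (y + 1) = Pp B a L y := by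
        unfold Pp
        rw [pg_np a y hp]
      rw [this]

theorem moment_up (B κ : ℝ) (a L z M : ℕ) (hB : 0 ≤ B) (hB4 : B ≤ 1 / 4) (hκ : 0 ≤ κ) (ha : 2 ≤ a)
    (haL : a ≤ L) (hy : (a : ℝ) * Real.log z ≤ L * Real.log a)
    (hM : ∀ q : ℕ, q.Prime → q ≤ z → q ∣ M)
    (hP : ∀ y, a ≤ y → y ≤ z → 0 ≤ Pm B a L y ∧ κ * Pm B a L y ≤ B * (Real.log y / Real.log a))
    (y : ℕ) (hay : a ≤ y) : y ≤ z →
    ∑ n ∈ range M, Real.exp (κ * ((a : ℝ) / L) * Pm B a L y * (sv y L n).card) ≤
      ∑ n ∈ range M, Real.exp (κ * ((a : ℝ) / L) * (sv a L n).card) := by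
  induction y, hay using Nat.le_induction with
  | base =>
    intro _
    have : Pm B a L a = 1 := by
      unfold Pm
      rw [pg_self, prod_empty]
    rw [this, mul_one]
  | succ y hy' ih =>
    intro hyz
    refine le_trans ?_ (ih (by omega))
    by_cases hp : (y + 1).Prime
    · have hL0 : (0 : ℝ) < L := by
        have : 0 < L := by omega
        exact_mod_cast this
      have ha0 : (0 : ℝ) < a := by
        have : 0 < a := by omega
        exact_mod_cast this
      obtain ⟨hP0, hP1⟩ := hP (y + 1) (by omega) hyz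
      have hx1 : xx B a L (y + 1) ≤ 1 := by
        have := xx_le hB a L (y + 1) z ha (by omega) hyz (by omega) hy
        linarith
      have hx0 := xx_nonneg hB a L (y + 1)
      have h3 : (3 : ℝ) ≤ ((y + 1 : ℕ) : ℝ) := by
        have : 3 ≤ y + 1 := by omega
        exact_mod_cast this
      obtain ⟨hf, _⟩ := fac_m h3 hx0 hx1
      have hq0 : (0 : ℝ) < ((y + 1 : ℕ) : ℝ) := by linarith
      have hx : κ * ((a : ℝ) / L) * Pm B a L (y + 1) * ((L : ℝ) / ((y + 1 : ℕ) : ℝ) + 1) ≤
          xx B a L (y + 1) := by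
        have e : κ * ((a : ℝ) / L) * Pm B a L (y + 1) * ((L : ℝ) / ((y + 1 : ℕ) : ℝ) + 1) =
            (κ * Pm B a L (y + 1)) * ((a : ℝ) / ((y + 1 : ℕ) : ℝ) + (a : ℝ) / L) := by
          field_simp
        rw [e]
        unfold xx
        exact mul_le_mul_of_nonneg_right hP1 (by positivity)
      have h4 := step_up y L M hp (fun q hq hqy => hM q hq (hqy.trans hyz))
        (κ * ((a : ℝ) / L) * Pm B a L (y + 1)) (xx B a L (y + 1)) (by positivity) hx hx1
      refine h4.trans (le_of_eq ?_)
      have h5 : Pm B a L (y + 1) * (1 - (1 - xx B a L (y + 1)) / ((y + 1 : ℕ) : ℝ)) = Pm B a L y := by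
        unfold Pm
        rw [pg_pr a y hy' hp]
        rw [mul_assoc, inv_mul_cancel₀ hf.ne', mul_one]
      apply sum_congr rfl
      intro n _
      rw [← h5]
      congr 2
      ring
    · apply le_of_eq
      apply sum_congr rfl
      intro n _
      rw [sv_np y L n hp]
      have : Pm B a L (y + 1) = Pm B a L y := by
        unfold Pm
        rw [pg_np a y hp]
      rw [this]

/-- **large deviations** -/
theorem ld : ∃ c C : ℝ, 0 < c ∧ 0 ≤ C ∧ ∀ (B : ℝ) (a L z M : ℕ), 0 ≤ B → B ≤ 1 / 4 → 2 ≤ a → a ≤ L →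
    a ≤ z → (a : ℝ) * Real.log z ≤ L * Real.log a → (∀ q : ℕ, q.Prime → q ≤ z → q ∣ M) →
    (∀ S T : ℝ, 0 ≤ T → (∀ n, S ≤ (sv a L n).card) →
      (((range M).filter (fun n => ((sv z L n).card : ℝ) < T)).card : ℝ) ≤
        M * Real.exp (c * B * ((a : ℝ) / L) * (Real.exp (B * C) * VI a z * T - S))) ∧
    (∀ S T : ℝ, 0 ≤ T → (∀ n, ((sv a L n).card : ℝ) ≤ S) →
      (((range M).filter (fun n => T < ((sv z L n).card : ℝ))).card : ℝ) ≤
        M * Real.exp (c * B * ((a : ℝ) / L) * (S - Real.exp (-(B * C)) * VI a z * T))) := by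
  obtain ⟨C, hC0, hC⟩ := PP_bounds
  obtain ⟨c3, C3, hc3, hC3, hV⟩ := VI_bounds
  set K : ℝ := Real.exp (1 / 4 * C) * C3 with hK
  have hK0 : 0 < K := by positivity
  refine ⟨1 / K, C, by positivity, hC0, fun B a L z M hB hB4 ha haL haz hz hM => ?_⟩
  have hL0 : (0 : ℝ) < L := by
    have : 0 < L := by omega
    exact_mod_cast this
  have ha0 : (0 : ℝ) < a := by
    have : 0 < a := by omega
    exact_mod_cast this
  have ha2 : (2 : ℝ) ≤ a := by exact_mod_cast ha
  have hla : 0 < Real.log a := Real.log_pos (by linarith)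
  have hgen : ∀ y, a ≤ y → y ≤ z → 0 ≤ VI a y ∧ VI a y ≤ Pp B a L y ∧
      Pp B a L y ≤ Real.exp (B * C) * VI a y ∧
      Real.exp (-(B * C)) * VI a y ≤ Pm B a L y ∧ Pm B a L y ≤ VI a y ∧
      1 / K * B * Pp B a L y ≤ B * (Real.log y / Real.log a) ∧
      1 / K * B * Pm B a L y ≤ B * (Real.log y / Real.log a) := by
    intro y hay hyz
    have hay' : (a : ℝ) ≤ y := by exact_mod_cast hay
    have hly : Real.log y ≤ Real.log z := Real.log_le_log (by linarith) (by exact_mod_cast hyz)
    have hly0 : 0 < Real.log y := Real.log_pos (by linarith)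
    have hrat : 0 < Real.log y / Real.log a := div_pos hly0 hla
    have h1 := hC B a L y hB hB4 ha haL hay (by nlinarith)
    have h2 := hV a y ha hay
    have hV0 : 0 ≤ VI a y := le_trans (by positivity) h2.1
    have hVC : Real.exp (B * C) * VI a y ≤ K * (Real.log y / Real.log a) := by
      rw [hK]
      calc Real.exp (B * C) * VI a y ≤ Real.exp (1 / 4 * C) * (C3 * (Real.log y / Real.log a)) := by
            apply mul_le_mul _ h2.2 hV0 (Real.exp_pos _).le
            apply Real.exp_le_exp.2
            exact mul_le_mul_of_nonneg_right hB4 hC0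
        _ = _ := by ring
    have hVV : VI a y ≤ Real.exp (B * C) * VI a y := by
      apply le_mul_of_one_le_left hV0
      exact Real.one_le_exp (by positivity)
    have hgo : ∀ P : ℝ, P ≤ Real.exp (B * C) * VI a y →
        1 / K * B * P ≤ B * (Real.log y / Real.log a) := by
      intro P hP
      have h3 : P ≤ K * (Real.log y / Real.log a) := hP.trans hVC
      calc 1 / K * B * P ≤ 1 / K * B * (K * (Real.log y / Real.log a)) :=
            mul_le_mul_of_nonneg_left h3 (by positivity)
        _ = _ := by field_simp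
    exact ⟨hV0, h1.1, h1.2.1, h1.2.2.1, h1.2.2.2, hgo _ h1.2.1, hgo _ (h1.2.2.2.trans hVV)⟩
  obtain ⟨hz0, hz1, hz2, hz3, hz4, _, _⟩ := hgen z haz le_rfl
  have hPm0 : 0 ≤ Pm B a L z := le_trans (mul_nonneg (Real.exp_pos _).le hz0) hz3
  constructor
  · intro S T hT hS
    have h1 := moment_lo B (1 / K * B) a L z M hB hB4 (by positivity) ha haL hz hM
      (fun y hay hyz => ⟨((hgen y hay hyz).1.trans (hgen y hay hyz).2.1), (hgen y hay hyz).2.2.2.2.2.1⟩)
      z haz le_rfl
    set lam : ℝ := 1 / K * B * ((a : ℝ) / L) with hlam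
    have hlam0 : 0 ≤ lam := by positivity
    have h2 : ∑ n ∈ range M, Real.exp (-(lam * (sv a L n).card)) ≤ M * Real.exp (-(lam * S)) := by
      calc ∑ n ∈ range M, Real.exp (-(lam * (sv a L n).card)) ≤ ∑ _n ∈ range M, Real.exp (-(lam * S)) := by
            apply sum_le_sum
            intro n _
            apply Real.exp_le_exp.2
            have := mul_le_mul_of_nonneg_left (hS n) hlam0
            linarith
        _ = M * Real.exp (-(lam * S)) := by rw [sum_const, card_range, nsmul_eq_mul]
    have h3 : (((range M).filter (fun n => ((sv z L n).card : ℝ) < T)).card : ℝ) *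
        Real.exp (-(lam * Pp B a L z * T)) ≤
        ∑ n ∈ range M, Real.exp (-(lam * Pp B a L z * (sv z L n).card)) := by
      calc (((range M).filter (fun n => ((sv z L n).card : ℝ) < T)).card : ℝ) *
          Real.exp (-(lam * Pp B a L z * T)) =
          ∑ n ∈ (range M).filter (fun n => ((sv z L n).card : ℝ) < T),
            Real.exp (-(lam * Pp B a L z * T)) := by rw [sum_const, nsmul_eq_mul]
        _ ≤ ∑ n ∈ (range M).filter (fun n => ((sv z L n).card : ℝ) < T),
            Real.exp (-(lam * Pp B a L z * (sv z L n).card)) := by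
            apply sum_le_sum
            intro n hn
            rw [mem_filter] at hn
            apply Real.exp_le_exp.2
            have := mul_le_mul_of_nonneg_left hn.2.le (mul_nonneg hlam0 (hz0.trans hz1))
            linarith
        _ ≤ _ := sum_le_sum_of_subset_of_nonneg (filter_subset _ _) (fun i _ _ => (Real.exp_pos _).le)
    have h4 : (((range M).filter (fun n => ((sv z L n).card : ℝ) < T)).card : ℝ) ≤
        M * Real.exp (-(lam * S)) * Real.exp (lam * Pp B a L z * T) := by
      have h5 := (h3.trans h1).trans h2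
      rw [Real.exp_neg, ← div_eq_mul_inv, div_le_iff₀ (Real.exp_pos _)] at h5
      exact h5
    refine h4.trans ?_
    rw [mul_assoc, ← Real.exp_add]
    apply mul_le_mul_of_nonneg_left _ (Nat.cast_nonneg M)
    apply Real.exp_le_exp.2
    have h6 : lam * (Pp B a L z * T) ≤ lam * (Real.exp (B * C) * VI a z * T) :=
      mul_le_mul_of_nonneg_left (mul_le_mul_of_nonneg_right hz2 hT) hlam0
    linarith
  · intro S T hT hS
    have h1 := moment_up B (1 / K * B) a L z M hB hB4 (by positivity) ha haL hz hM
      (fun y hay hyz => ⟨(mul_nonneg (Real.exp_pos _).le (hgen y hay hyz).1).trans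
        (hgen y hay hyz).2.2.2.1, (hgen y hay hyz).2.2.2.2.2.2⟩)
      z haz le_rfl
    set lam : ℝ := 1 / K * B * ((a : ℝ) / L) with hlam
    have hlam0 : 0 ≤ lam := by positivity
    have h2 : ∑ n ∈ range M, Real.exp (lam * (sv a L n).card) ≤ M * Real.exp (lam * S) := by
      calc ∑ n ∈ range M, Real.exp (lam * (sv a L n).card) ≤ ∑ _n ∈ range M, Real.exp (lam * S) := by
            apply sum_le_sum
            intro n _
            apply Real.exp_le_exp.2
            exact mul_le_mul_of_nonneg_left (hS n) hlam0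
        _ = M * Real.exp (lam * S) := by rw [sum_const, card_range, nsmul_eq_mul]
    have h3 : (((range M).filter (fun n => T < ((sv z L n).card : ℝ))).card : ℝ) *
        Real.exp (lam * Pm B a L z * T) ≤
        ∑ n ∈ range M, Real.exp (lam * Pm B a L z * (sv z L n).card) := by
      calc (((range M).filter (fun n => T < ((sv z L n).card : ℝ))).card : ℝ) *
          Real.exp (lam * Pm B a L z * T) =
          ∑ n ∈ (range M).filter (fun n => T < ((sv z L n).card : ℝ)),
            Real.exp (lam * Pm B a L z * T) := by rw [sum_const, nsmul_eq_mul]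
        _ ≤ ∑ n ∈ (range M).filter (fun n => T < ((sv z L n).card : ℝ)),
            Real.exp (lam * Pm B a L z * (sv z L n).card) := by
            apply sum_le_sum
            intro n hn
            rw [mem_filter] at hn
            apply Real.exp_le_exp.2
            exact mul_le_mul_of_nonneg_left hn.2.le (mul_nonneg hlam0 hPm0)
        _ ≤ _ := sum_le_sum_of_subset_of_nonneg (filter_subset _ _) (fun i _ _ => (Real.exp_pos _).le)
    have h4 : (((range M).filter (fun n => T < ((sv z L n).card : ℝ))).card : ℝ) ≤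
        M * Real.exp (lam * S) * Real.exp (-(lam * Pm B a L z * T)) := by
      have h5 := (h3.trans h1).trans h2
      rw [Real.exp_neg, ← div_eq_mul_inv, le_div_iff₀ (Real.exp_pos _)]
      exact h5
    refine h4.trans ?_
    rw [mul_assoc, ← Real.exp_add]
    apply mul_le_mul_of_nonneg_left _ (Nat.cast_nonneg M)
    apply Real.exp_le_exp.2
    have h6 : lam * (Real.exp (-(B * C)) * VI a z * T) ≤ lam * (Pm B a L z * T) :=
      mul_le_mul_of_nonneg_left (mul_le_mul_of_nonneg_right hz3 hT) hlam0
    linarith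

end Pool.Agent.D0H36.BW
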