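import Pool.Agent.D0H36.BW.Fourier
import Pool.Agent.D0H36.BW.LD
import Pool.Agent.D0H36.BW.DetB

/-! Weights of level `Q` and long intervals without rough numbers. -/

set_option autoImplicit false

open Finset Filter

namespace Pool.Agent.D0H36.BW

/-- **upper bound in all intervals** -/
theorem det_up : ∃ C : ℝ, 0 < C ∧ ∃ L0 : ℕ, ∀ L : ℕ, L0 ≤ L →
    ∀ a : ℕ, 2 ≤ a → a ≤ L → ∀ n : ℕ, ((sv a L n).card : ℝ) ≤ C * (L / Real.log a) := by
  obtain ⟨s, hs1, L1, H⟩ := fl_int 1 one_pos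
  obtain ⟨c, C, hc, hC, hV⟩ := V_bounds
  have hs0 : (0 : ℝ) < s := by exact_mod_cast hs1
  have hs1' : (1 : ℝ) ≤ s := by exact_mod_cast hs1
  have hbase : ∀ L : ℕ, L1 ≤ L → ∀ a : ℕ, 2 ≤ a → (a : ℝ) ^ s ≤ L → ∀ n : ℕ,
      ((sv a L n).card : ℝ) ≤ 2 * C * (L / Real.log a) := by
    intro L hL a ha haL n
    have h1 := (abs_le.1 (H L hL a ha haL n)).2
    have h2 := (hV a ha).2
    have h3 : (L : ℝ) * V a ≤ L * (C / Real.log a) := mul_le_mul_of_nonneg_left h2 (Nat.cast_nonneg L)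
    have h4 : 2 * C * ((L : ℝ) / Real.log a) = 2 * (L * (C / Real.log a)) := by ring
    rw [h4]
    linarith
  refine ⟨2 * C * (2 * s), by positivity, max L1 (4 ^ (2 * s)), fun L hL a ha haL n => ?_⟩
  have hL1 : L1 ≤ L := (le_max_left _ _).trans hL
  have hL4 : (4 : ℕ) ^ (2 * s) ≤ L := (le_max_right _ _).trans hL
  have hL4' : (4 : ℝ) ^ (2 * s) ≤ L := by exact_mod_cast hL4
  have ha2 : (2 : ℝ) ≤ a := by exact_mod_cast ha
  have haL' : (a : ℝ) ≤ L := by exact_mod_cast haL
  have hla : 0 < Real.log a := Real.log_pos (by linarith)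
  rcases le_or_gt ((a : ℝ) ^ s) L with h | h
  · refine (hbase L hL1 a ha h n).trans ?_
    have h5 : 0 ≤ C * ((L : ℝ) / Real.log a) := by positivity
    nlinarith
  · set r : ℝ := (L : ℝ) ^ (1 / (s : ℝ)) with hr
    have hL0 : (0 : ℝ) < L := by linarith
    have hrs : r ^ s = L := by
      rw [hr, ← Real.rpow_natCast, ← Real.rpow_mul hL0.le, one_div, inv_mul_cancel₀ hs0.ne', Real.rpow_one]
    have hr0 : 0 < r := Real.rpow_pos_of_pos hL0 _
    have hr16 : 16 ≤ r := by
      have h5 : (16 : ℝ) ^ s ≤ r ^ s := by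
        rw [hrs]
        refine le_trans (le_of_eq ?_) hL4'
        rw [pow_mul]
        norm_num
      exact le_of_pow_le_pow_left₀ (by omega) hr0.le h5
    obtain ⟨b, hb⟩ : ∃ b : ℕ, b = ⌊r⌋₊ := ⟨_, rfl⟩
    have hbr : (b : ℝ) ≤ r := by rw [hb]; exact Nat.floor_le hr0.le
    have hbr' : r < b + 1 := by rw [hb]; exact Nat.lt_floor_add_one r
    have hb2 : 2 ≤ b := by
      have : (1 : ℝ) < b := by linarith
      exact_mod_cast this
    have hbs : (b : ℝ) ^ s ≤ L := by
      rw [← hrs]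
      exact pow_le_pow_left₀ (Nat.cast_nonneg b) hbr s
    have hba : b ≤ a := by
      by_contra hcon
      push Not at hcon
      have h5 : (a : ℝ) ≤ b := by exact_mod_cast hcon.le
      have h6 : (a : ℝ) ^ s ≤ (b : ℝ) ^ s := pow_le_pow_left₀ (by linarith) h5 s
      linarith
    have h7 : ((sv a L n).card : ℝ) ≤ ((sv b L n).card : ℝ) := by
      exact_mod_cast card_le_card (sv_anti hba L n)
    refine h7.trans ((hbase L hL1 b hb2 hbs n).trans ?_)
    have h8 : Real.log L ≤ 2 * s * Real.log b := by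
      have h9 : Real.log L = s * Real.log r := by
        rw [← hrs, Real.log_pow]
      have h10 : r ≤ (b : ℝ) ^ 2 := by
        have : (15 : ℝ) ≤ b := by linarith
        nlinarith
      have h11 : Real.log r ≤ 2 * Real.log b := by
        have := Real.log_le_log hr0 h10
        rw [Real.log_pow] at this
        push_cast at this
        exact this
      rw [h9]
      nlinarith
    have h12 : Real.log a ≤ Real.log L := Real.log_le_log (by linarith) haL'
    have hb0 : (1 : ℝ) < b := by linarith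
    have hlb : 0 < Real.log b := Real.log_pos hb0
    have h13 : (L : ℝ) / Real.log b ≤ 2 * s * (L / Real.log a) := by
      rw [← mul_div_assoc, div_le_div_iff₀ hlb hla]
      have : Real.log a ≤ 2 * s * Real.log b := h12.trans h8
      nlinarith
    calc 2 * C * ((L : ℝ) / Real.log b) ≤ 2 * C * (2 * s * (L / Real.log a)) :=
          mul_le_mul_of_nonneg_left h13 (by positivity)
      _ = _ := by ring

theorem growth (K β : ℝ) (hβ : 0 < β) : ∃ Q0 : ℕ, 3 ≤ Q0 ∧ ∀ Q : ℕ, Q0 ≤ Q →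
    3 ≤ ⌊(Real.log Q) ^ (1 + β)⌋₊ ∧
    K * Real.log Q ≤ (⌊(Real.log Q) ^ (1 + β)⌋₊ : ℝ) / Real.log (⌊(Real.log Q) ^ (1 + β)⌋₊ : ℝ) := by
  have hlog : Tendsto (fun Q : ℕ => Real.log (Q : ℝ)) atTop atTop :=
    Real.tendsto_log_atTop.comp tendsto_natCast_atTop_atTop
  have h1 : ∀ᶠ Q : ℕ in atTop, (4 : ℝ) ≤ (Real.log Q) ^ (1 + β) :=
    ((tendsto_rpow_atTop (by linarith : 0 < 1 + β)).comp hlog).eventually_ge_atTop 4
  set K' : ℝ := 2 * |K| * ((1 + β) / (β / 2)) + 1 with hK'
  have h2 : ∀ᶠ Q : ℕ in atTop, K' ≤ (Real.log Q) ^ (β / 2) :=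
    ((tendsto_rpow_atTop (by linarith : 0 < β / 2)).comp hlog).eventually_ge_atTop K'
  have h3 : ∀ᶠ Q : ℕ in atTop, (1 : ℝ) < Real.log Q := hlog.eventually_gt_atTop 1
  obtain ⟨Q0, hQ0⟩ := eventually_atTop.1 (h1.and (h2.and h3))
  refine ⟨max Q0 3, le_max_right _ _, fun Q hQ => ?_⟩
  obtain ⟨g1, g2, g3⟩ := hQ0 Q ((le_max_left _ _).trans hQ)
  set x := Real.log Q with hx
  obtain ⟨a, ha⟩ : ∃ a : ℕ, a = ⌊x ^ (1 + β)⌋₊ := ⟨_, rfl⟩
  rw [← ha]
  have hxp : 0 < x ^ (1 + β) := by positivity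
  have ha1 : (a : ℝ) ≤ x ^ (1 + β) := by rw [ha]; exact Nat.floor_le hxp.le
  have ha2 : x ^ (1 + β) < a + 1 := by rw [ha]; exact Nat.lt_floor_add_one _
  have ha3 : 3 ≤ a := by
    have : (2 : ℝ) < a := by linarith
    exact_mod_cast this
  refine ⟨ha3, ?_⟩
  have ha3' : (3 : ℝ) ≤ a := by exact_mod_cast ha3
  have hla : 0 < Real.log a := Real.log_pos (by linarith)
  have h4 : Real.log a ≤ (1 + β) * (x ^ (β / 2) / (β / 2)) := by
    calc Real.log a ≤ Real.log (x ^ (1 + β)) := Real.log_le_log (by linarith) ha1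
      _ = (1 + β) * Real.log x := Real.log_rpow (by linarith) _
      _ ≤ (1 + β) * (x ^ (β / 2) / (β / 2)) :=
          mul_le_mul_of_nonneg_left (Real.log_le_rpow_div (by linarith) (by linarith)) (by linarith)
  rw [le_div_iff₀ hla]
  have h5 : x ^ (1 + β) = x * x ^ (β / 2) * x ^ (β / 2) := by
    have e1 : x * x ^ (β / 2) * x ^ (β / 2) = x ^ (1 : ℝ) * x ^ (β / 2) * x ^ (β / 2) := by
      rw [Real.rpow_one]
    rw [e1, ← Real.rpow_add (by linarith), ← Real.rpow_add (by linarith)]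
    congr 1
    ring
  have h6 : x ^ (1 + β) ≤ 2 * a := by linarith
  have hxb : 0 < x ^ (β / 2) := by positivity
  calc K * x * Real.log a ≤ |K| * x * Real.log a := by
        apply mul_le_mul_of_nonneg_right _ hla.le
        exact mul_le_mul_of_nonneg_right (le_abs_self K) (by linarith)
    _ ≤ |K| * x * ((1 + β) * (x ^ (β / 2) / (β / 2))) :=
        mul_le_mul_of_nonneg_left h4 (by positivity)
    _ = (|K| * ((1 + β) / (β / 2))) * (x * x ^ (β / 2)) := by ring
    _ ≤ (x ^ (β / 2) / 2) * (x * x ^ (β / 2)) := by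
        apply mul_le_mul_of_nonneg_right _ (by positivity)
        linarith
    _ = x ^ (1 + β) / 2 := by rw [h5]; ring
    _ ≤ a := by linarith

/-- from small sets to weights -/
theorem transfer (A : ℝ) (Q M : ℕ) (co : ℕ → ℕ → ℝ) (hQ : 2 ≤ Q) (hM : 0 < M)
    (hd : ∀ d ∈ Icc 1 Q, d ∣ M) (F : Finset ℕ) (t : ℝ)
    (ht : (A + 3) * Real.log Q ≤ t)
    (hc : (F.card : ℝ) ≤ M * Real.exp (-t) + M * Real.exp (-t)) :
    ∑ n ∈ F, |wt Q co n| ≤ (Q : ℝ) ^ (-A) * ∑ n ∈ range M, |wt Q co n| := by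
  have hM' : (0 : ℝ) < M := by exact_mod_cast hM
  have hQ' : (2 : ℝ) ≤ Q := by exact_mod_cast hQ
  have hQ0 : (0 : ℝ) < Q := by linarith
  set S := ∑ n ∈ range M, |wt Q co n| with hS
  have hS0 : 0 ≤ S := sum_nonneg fun n _ => abs_nonneg _
  have h1 : ∀ n ∈ F, |wt Q co n| ≤ (Q : ℝ) ^ 2 * S / M := by
    intro n _
    rw [le_div_iff₀ hM']
    exact wt_le Q M co hM hd n
  have h2 : ∑ n ∈ F, |wt Q co n| ≤ F.card * ((Q : ℝ) ^ 2 * S / M) := by
    refine (sum_le_sum h1).trans (le_of_eq ?_)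
    rw [sum_const, nsmul_eq_mul]
  have h3 : Real.exp (-t) ≤ (Q : ℝ) ^ (-A) / (Q : ℝ) ^ 3 := by
    have e : (Q : ℝ) ^ (-A) / (Q : ℝ) ^ 3 = Real.exp (-((A + 3) * Real.log Q)) := by
      rw [← Real.rpow_natCast, ← Real.rpow_sub hQ0, Real.rpow_def_of_pos hQ0]
      congr 1
      push_cast
      ring
    rw [e]
    apply Real.exp_le_exp.2
    linarith
  refine h2.trans ?_
  calc (F.card : ℝ) * ((Q : ℝ) ^ 2 * S / M)
      ≤ (M * Real.exp (-t) + M * Real.exp (-t)) * ((Q : ℝ) ^ 2 * S / M) :=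
        mul_le_mul_of_nonneg_right hc (by positivity)
    _ = 2 * Real.exp (-t) * (Q : ℝ) ^ 2 * S := by field_simp; ring
    _ ≤ 2 * ((Q : ℝ) ^ (-A) / (Q : ℝ) ^ 3) * (Q : ℝ) ^ 2 * S := by
        apply mul_le_mul_of_nonneg_right _ hS0
        apply mul_le_mul_of_nonneg_right _ (by positivity)
        linarith
    _ = (2 / Q) * ((Q : ℝ) ^ (-A) * S) := by field_simp
    _ ≤ 1 * ((Q : ℝ) ^ (-A) * S) := by
        apply mul_le_mul_of_nonneg_right _ (by positivity)
        rw [div_le_one hQ0]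
        exact hQ'
    _ = (Q : ℝ) ^ (-A) * S := one_mul _

/-- **the two-sided bound** -/
theorem main1 (A ε : ℝ) (hε : 0 < ε) : ∃ c C : ℝ, 0 < c ∧ 0 < C ∧ ∃ Q0 : ℕ,
    ∀ Q L z M : ℕ, Q0 ≤ Q → (Real.log Q) ^ (2 + ε) ≤ L → 2 ≤ z → Real.log z ≤ Real.sqrt L →
      0 < M → (∀ d : ℕ, 1 ≤ d → d ≤ max Q z → d ∣ M) → ∀ co : ℕ → ℕ → ℝ,
      ∑ n ∈ (range M).filter (fun n => ¬ (c * (L / Real.log z) ≤ (sv z L n).card ∧
        ((sv z L n).card : ℝ) ≤ C * (L / Real.log z))), |wt Q co n| ≤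
          (Q : ℝ) ^ (-A) * ∑ n ∈ range M, |wt Q co n| := by
  obtain ⟨c1, C1, hc1, hC1, H⟩ := ld
  obtain ⟨c3, C3, hc3, hC3, hVI⟩ := VI_bounds
  set θ : ℝ := (1 / 2 + 1 / (2 + ε)) / 2 with hθ
  have h2ε : 1 / (2 + ε) < 1 / 2 := one_div_lt_one_div_of_lt (by norm_num) (by linarith)
  have h2ε' : 0 < 1 / (2 + ε) := by positivity
  have hθ0 : 0 < θ := by rw [hθ]; linarith
  have hθ1 : θ < 1 / 2 := by rw [hθ]; linarith
  have hθε : (2 + ε) * θ = 1 + ε / 4 := by
    rw [hθ]
    field_simp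
    ring
  obtain ⟨cd, hcd, L1, Hlo⟩ := det_lo θ hθ0 hθ1
  obtain ⟨Cu, hCu, L2, Hup⟩ := det_up
  set E : ℝ := Real.exp (1 / 4 * C1) with hE
  have hE0 : 0 < E := Real.exp_pos _
  set t : ℝ := cd / (2 * (E * C3)) with ht
  set t' : ℝ := 2 * Cu * E / c3 with ht'
  have hC30 : 0 < C3 := by linarith
  have ht0 : 0 < t := by positivity
  have ht'0 : 0 < t' := by positivity
  set κ : ℝ := min (c1 * (1 / 4) * (cd / 2)) (c1 * (1 / 4) * Cu) with hκ
  have hκ0 : 0 < κ := lt_min (by positivity) (by positivity)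
  obtain ⟨Q1, hQ13, Hg⟩ := growth ((A + 3) / κ) (ε / 4) (by linarith)
  have hlog : Tendsto (fun Q : ℕ => (Real.log (Q : ℝ)) ^ (2 + ε)) atTop atTop :=
    (tendsto_rpow_atTop (by linarith : 0 < 2 + ε)).comp
      (Real.tendsto_log_atTop.comp tendsto_natCast_atTop_atTop)
  obtain ⟨Q2, hQ2⟩ := eventually_atTop.1 (hlog.eventually_ge_atTop ((max L1 L2 : ℕ) : ℝ))
  refine ⟨min cd t, max Cu t', lt_min hcd ht0, lt_max_of_lt_left hCu, max Q1 Q2,
    fun Q L z M hQ hQL hz hzL hM hd co => ?_⟩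
  have hQ1 : Q1 ≤ Q := (le_max_left _ _).trans hQ
  have hQ2' : Q2 ≤ Q := (le_max_right _ _).trans hQ
  have hQ3 : 3 ≤ Q := hQ13.trans hQ1
  have hLmax : max L1 L2 ≤ L := by
    have := (hQ2 Q hQ2').trans hQL
    exact_mod_cast this
  have hL1 : L1 ≤ L := (le_max_left _ _).trans hLmax
  have hL2 : L2 ≤ L := (le_max_right _ _).trans hLmax
  obtain ⟨g1, g2⟩ := Hg Q hQ1
  obtain ⟨a, ha⟩ : ∃ a : ℕ, a = ⌊(Real.log Q) ^ (1 + ε / 4)⌋₊ := ⟨_, rfl⟩
  rw [← ha] at g1 g2
  have hx0 : 0 ≤ Real.log Q := Real.log_natCast_nonneg Q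
  have hL0 : (0 : ℝ) ≤ L := Nat.cast_nonneg L
  have haL : (a : ℝ) ≤ (L : ℝ) ^ θ := by
    calc (a : ℝ) ≤ (Real.log Q) ^ (1 + ε / 4) := by
          rw [ha]; exact Nat.floor_le (by positivity)
      _ = ((Real.log Q) ^ (2 + ε)) ^ θ := by rw [← Real.rpow_mul hx0, hθε]
      _ ≤ (L : ℝ) ^ θ := Real.rpow_le_rpow (by positivity) hQL hθ0.le
  have ha3 : (3 : ℝ) ≤ a := by exact_mod_cast g1
  have hL1r : 1 ≤ (L : ℝ) := by
    by_contra hcon
    push Not at hcon
    have : (L : ℝ) ^ θ ≤ 1 := Real.rpow_le_one hL0 hcon.le hθ0.le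
    linarith
  have hLpos : (0 : ℝ) < L := by linarith
  have hsqrt : (L : ℝ) ^ θ ≤ Real.sqrt L := by
    rw [Real.sqrt_eq_rpow]
    exact Real.rpow_le_rpow_of_exponent_le hL1r hθ1.le
  have hsq : Real.sqrt L * Real.sqrt L = L := Real.mul_self_sqrt hL0
  have hs1 : 1 ≤ Real.sqrt L := Real.one_le_sqrt.2 hL1r
  have hsL : Real.sqrt L ≤ L := by nlinarith
  have haL' : a ≤ L := by
    have : (a : ℝ) ≤ L := (haL.trans hsqrt).trans hsL
    exact_mod_cast this
  have hz2 : (2 : ℝ) ≤ z := by exact_mod_cast hz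
  have hlz : 0 < Real.log z := Real.log_pos (by linarith)
  have hLz : 0 ≤ (L : ℝ) / Real.log z := by positivity
  have hla : 0 < Real.log a := Real.log_pos (by linarith)
  rcases Nat.lt_or_ge z a with hza | hza
  · -- all n are good
    have hzL' : (z : ℝ) ≤ (L : ℝ) ^ θ := by
      have : (z : ℝ) ≤ a := by exact_mod_cast hza.le
      exact this.trans haL
    have hempty : (range M).filter (fun n => ¬ (min cd t * (L / Real.log z) ≤ (sv z L n).card ∧
        ((sv z L n).card : ℝ) ≤ max Cu t' * (L / Real.log z))) = ∅ := by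
      apply filter_eq_empty_iff.2
      intro n _ hcon
      apply hcon
      constructor
      · refine le_trans ?_ (Hlo L hL1 z hz hzL' n)
        exact mul_le_mul_of_nonneg_right (min_le_left _ _) hLz
      · refine (Hup L hL2 z hz (hza.le.trans haL') n).trans ?_
        exact mul_le_mul_of_nonneg_right (le_max_left _ _) hLz
    rw [hempty, sum_empty]
    have : 0 ≤ ∑ n ∈ range M, |wt Q co n| := sum_nonneg fun n _ => abs_nonneg _
    positivity
  · have hlog1 : 1 ≤ Real.log a := by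
      have h9 := Real.exp_one_lt_d9
      have : Real.log (Real.exp 1) ≤ Real.log a := Real.log_le_log (Real.exp_pos _) (by linarith)
      rwa [Real.log_exp] at this
    have hcond : (a : ℝ) * Real.log z ≤ L * Real.log a := by
      calc (a : ℝ) * Real.log z ≤ Real.sqrt L * Real.sqrt L :=
            mul_le_mul (haL.trans hsqrt) hzL hlz.le (Real.sqrt_nonneg _)
        _ = L := hsq
        _ ≤ L * Real.log a := le_mul_of_one_le_right hL0 hlog1
    obtain ⟨Hl, Hu⟩ := H (1 / 4) a L z M (by norm_num) le_rfl (by omega) haL' hza hcond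
      (fun q hq hqz => hd q hq.one_lt.le (hqz.trans (le_max_right _ _)))
    obtain ⟨hv1, hv2⟩ := hVI a z (by omega) hza
    have b1 := Hl (cd * (L / Real.log a)) (t * (L / Real.log z)) (by positivity)
      (fun n => Hlo L hL1 a (by omega) haL n)
    have b2 := Hu (Cu * (L / Real.log a)) (t' * (L / Real.log z)) (by positivity)
      (fun n => Hup L hL2 a (by omega) haL' n)
    set τ : ℝ := κ * (a / Real.log a) with hτ
    have ht1 : (A + 3) * Real.log Q ≤ τ := by
      have := mul_le_mul_of_nonneg_left g2 hκ0.le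
      calc (A + 3) * Real.log Q = κ * ((A + 3) / κ * Real.log Q) := by field_simp
        _ ≤ τ := this
    have e1 : c1 * (1 / 4) * ((a : ℝ) / L) *
        (Real.exp (1 / 4 * C1) * VI a z * (t * (L / Real.log z)) - cd * (L / Real.log a)) ≤ -τ := by
      have f1 : Real.exp (1 / 4 * C1) * VI a z * (t * (L / Real.log z)) ≤ cd / 2 * (L / Real.log a) := by
        calc Real.exp (1 / 4 * C1) * VI a z * (t * (L / Real.log z))
            ≤ E * (C3 * (Real.log z / Real.log a)) * (t * (L / Real.log z)) := by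
              apply mul_le_mul_of_nonneg_right _ (by positivity)
              exact mul_le_mul_of_nonneg_left hv2 hE0.le
          _ = cd / 2 * (L / Real.log a) := by
              rw [ht]
              field_simp
      have f2 : Real.exp (1 / 4 * C1) * VI a z * (t * (L / Real.log z)) - cd * (L / Real.log a) ≤
          -(cd / 2 * (L / Real.log a)) := by linarith
      have f3 := mul_le_mul_of_nonneg_left f2 (by positivity : 0 ≤ c1 * (1 / 4) * ((a : ℝ) / L))
      refine f3.trans ?_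
      have f4 : κ * ((a : ℝ) / Real.log a) ≤ c1 * (1 / 4) * (cd / 2) * (a / Real.log a) :=
        mul_le_mul_of_nonneg_right (min_le_left _ _) (by positivity)
      have f5 : c1 * (1 / 4) * ((a : ℝ) / L) * -(cd / 2 * (L / Real.log a)) =
          -(c1 * (1 / 4) * (cd / 2) * (a / Real.log a)) := by
        field_simp
      rw [f5, hτ]
      linarith
    have e2 : c1 * (1 / 4) * ((a : ℝ) / L) *
        (Cu * (L / Real.log a) - Real.exp (-(1 / 4 * C1)) * VI a z * (t' * (L / Real.log z))) ≤ -τ := by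
      have f1 : 2 * Cu * (L / Real.log a) ≤
          Real.exp (-(1 / 4 * C1)) * VI a z * (t' * (L / Real.log z)) := by
        calc 2 * Cu * (L / Real.log a) =
            Real.exp (-(1 / 4 * C1)) * (c3 * (Real.log z / Real.log a)) * (t' * (L / Real.log z)) := by
              rw [ht', Real.exp_neg, ← hE]
              field_simp
          _ ≤ _ := by
              apply mul_le_mul_of_nonneg_right _ (by positivity)
              exact mul_le_mul_of_nonneg_left hv1 (Real.exp_pos _).le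
      have f2 : Cu * (L / Real.log a) - Real.exp (-(1 / 4 * C1)) * VI a z * (t' * (L / Real.log z)) ≤
          -(Cu * (L / Real.log a)) := by linarith
      have f3 := mul_le_mul_of_nonneg_left f2 (by positivity : 0 ≤ c1 * (1 / 4) * ((a : ℝ) / L))
      refine f3.trans ?_
      have f4 : κ * ((a : ℝ) / Real.log a) ≤ c1 * (1 / 4) * Cu * (a / Real.log a) :=
        mul_le_mul_of_nonneg_right (min_le_right _ _) (by positivity)
      have f5 : c1 * (1 / 4) * ((a : ℝ) / L) * -(Cu * (L / Real.log a)) =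
          -(c1 * (1 / 4) * Cu * (a / Real.log a)) := by
        field_simp
      rw [f5, hτ]
      linarith
    have hM0 : (0 : ℝ) ≤ M := Nat.cast_nonneg M
    apply transfer A Q M co (by omega) hM
      (fun d hd' => hd d (mem_Icc.1 hd').1 ((mem_Icc.1 hd').2.trans (le_max_left _ _))) _
      τ ht1
    have hsub : (range M).filter (fun n => ¬ (min cd t * (L / Real.log z) ≤ (sv z L n).card ∧
        ((sv z L n).card : ℝ) ≤ max Cu t' * (L / Real.log z))) ⊆
        (range M).filter (fun n => ((sv z L n).card : ℝ) < t * (L / Real.log z)) ∪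
        (range M).filter (fun n => t' * (L / Real.log z) < ((sv z L n).card : ℝ)) := by
      intro n hn
      rw [mem_filter] at hn
      rw [mem_union, mem_filter, mem_filter]
      by_contra hcon
      push Not at hcon
      apply hn.2
      constructor
      · refine le_trans ?_ (hcon.1 hn.1)
        exact mul_le_mul_of_nonneg_right (min_le_right _ _) hLz
      · refine (hcon.2 hn.1).trans ?_
        exact mul_le_mul_of_nonneg_right (le_max_right _ _) hLz
    calc (((range M).filter (fun n => ¬ (min cd t * (L / Real.log z) ≤ (sv z L n).card ∧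
        ((sv z L n).card : ℝ) ≤ max Cu t' * (L / Real.log z)))).card : ℝ)
        ≤ (((range M).filter (fun n => ((sv z L n).card : ℝ) < t * (L / Real.log z)) ∪
        (range M).filter (fun n => t' * (L / Real.log z) < ((sv z L n).card : ℝ))).card : ℝ) := by
          exact_mod_cast card_le_card hsub
      _ ≤ (((range M).filter (fun n => ((sv z L n).card : ℝ) < t * (L / Real.log z))).card : ℝ) +
        (((range M).filter (fun n => t' * (L / Real.log z) < ((sv z L n).card : ℝ))).card : ℝ) := by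
          exact_mod_cast card_union_le _ _
      _ ≤ M * Real.exp (-τ) + M * Real.exp (-τ) := by
          apply add_le_add
          · exact b1.trans (mul_le_mul_of_nonneg_left (Real.exp_le_exp.2 e1) hM0)
          · exact b2.trans (mul_le_mul_of_nonneg_left (Real.exp_le_exp.2 e2) hM0)

end Pool.Agent.D0H36.BW
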