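import Pool.Agent.D0H36.BW.Main

/-! Weights of level `Q` and the asymptotic number of rough numbers in intervals. -/

set_option autoImplicit false

open Finset Filter

namespace Pool.Agent.D0H36.BW

/-- **the asymptotic form** -/
theorem main2 (A ε : ℝ) (hε : 0 < ε) (hε1 : ε ≤ 1) : ∃ K : ℝ, 0 < K ∧ ∃ Q0 : ℕ,
    ∀ Q L z M : ℕ, Q0 ≤ Q → (Real.log Q) ^ K ≤ L → 2 ≤ z → Real.log z ≤ Real.sqrt L →
      0 < M → (∀ d : ℕ, 1 ≤ d → d ≤ max Q z → d ∣ M) → ∀ co : ℕ → ℕ → ℝ,
      ∑ n ∈ (range M).filter (fun n => ¬ ((1 - ε) * (L * V z) ≤ (sv z L n).card ∧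
        ((sv z L n).card : ℝ) ≤ (1 + ε) * (L * V z))), |wt Q co n| ≤
          (Q : ℝ) ^ (-A) * ∑ n ∈ range M, |wt Q co n| := by
  obtain ⟨c1, C1, hc1, hC1, H⟩ := ld
  obtain ⟨cv, Cv, hcv, hCv, hV⟩ := V_bounds
  obtain ⟨s, hs1, L1, HF⟩ := fl_int (ε / 4) (by linarith)
  set B : ℝ := min (1 / 4) (ε / (4 * (C1 + 1))) with hB
  have hB0 : 0 < B := lt_min (by norm_num) (by positivity)
  have hB4 : B ≤ 1 / 4 := min_le_left _ _
  have hBC : B * C1 ≤ ε / 4 := by
    have h1 : B ≤ ε / (4 * (C1 + 1)) := min_le_right _ _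
    calc B * C1 ≤ B * (C1 + 1) := by nlinarith
      _ ≤ ε / (4 * (C1 + 1)) * (C1 + 1) := mul_le_mul_of_nonneg_right h1 (by linarith)
      _ = ε / 4 := by field_simp
  have hBC0 : 0 ≤ B * C1 := by positivity
  have hexp1 : Real.exp (B * C1) ≤ 1 + ε / 2 := by
    have h1 := exp_up hBC0 hBC (by linarith)
    nlinarith
  have hexp2 : 1 - ε / 4 ≤ Real.exp (-(B * C1)) := by
    have h1 := Real.add_one_le_exp (-(B * C1))
    linarith
  set κ : ℝ := c1 * B * cv * (ε / 4) with hκ
  have hκ0 : 0 < κ := by positivity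
  obtain ⟨Q1, hQ13, Hg⟩ := growth ((A + 3) / κ) 1 one_pos
  set K : ℝ := 2 * s + 4 with hK
  have hs1' : (1 : ℝ) ≤ s := by exact_mod_cast hs1
  have hlog : Tendsto (fun Q : ℕ => (Real.log (Q : ℝ)) ^ K) atTop atTop :=
    (tendsto_rpow_atTop (by rw [hK]; linarith : 0 < K)).comp
      (Real.tendsto_log_atTop.comp tendsto_natCast_atTop_atTop)
  obtain ⟨Q2, hQ2⟩ := eventually_atTop.1 (hlog.eventually_ge_atTop ((L1 : ℕ) : ℝ))
  refine ⟨K, by rw [hK]; linarith, max Q1 Q2, fun Q L z M hQ hQL hz hzL hM hd co => ?_⟩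
  have hQ1 : Q1 ≤ Q := (le_max_left _ _).trans hQ
  have hQ2' : Q2 ≤ Q := (le_max_right _ _).trans hQ
  have hQ3 : 3 ≤ Q := hQ13.trans hQ1
  have hL1 : L1 ≤ L := by
    have := (hQ2 Q hQ2').trans hQL
    exact_mod_cast this
  obtain ⟨g1, g2⟩ := Hg Q hQ1
  obtain ⟨a, ha⟩ : ∃ a : ℕ, a = ⌊(Real.log Q) ^ ((1 : ℝ) + 1)⌋₊ := ⟨_, rfl⟩
  rw [← ha] at g1 g2
  have hQ3' : (3 : ℝ) ≤ Q := by exact_mod_cast hQ3
  have hx1 : 1 ≤ Real.log Q := by
    have h9 := Real.exp_one_lt_d9
    have : Real.log (Real.exp 1) ≤ Real.log Q := Real.log_le_log (Real.exp_pos _) (by linarith)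
    rwa [Real.log_exp] at this
  have hx0 : 0 ≤ Real.log Q := by linarith
  have hL0 : (0 : ℝ) ≤ L := Nat.cast_nonneg L
  have haQ : (a : ℝ) ≤ (Real.log Q) ^ (2 : ℝ) := by
    rw [ha]
    refine (Nat.floor_le (by positivity)).trans (le_of_eq ?_)
    norm_num
  have haL : (a : ℝ) ^ s ≤ L := by
    calc (a : ℝ) ^ s ≤ ((Real.log Q) ^ (2 : ℝ)) ^ s := pow_le_pow_left₀ (Nat.cast_nonneg a) haQ s
      _ = (Real.log Q) ^ (2 * (s : ℝ)) := by
          rw [← Real.rpow_natCast, ← Real.rpow_mul hx0]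
      _ ≤ (Real.log Q) ^ K := Real.rpow_le_rpow_of_exponent_le hx1 (by rw [hK]; linarith)
      _ ≤ L := hQL
  have haL2 : (a : ℝ) * a ≤ L := by
    calc (a : ℝ) * a ≤ (Real.log Q) ^ (2 : ℝ) * (Real.log Q) ^ (2 : ℝ) :=
          mul_le_mul haQ haQ (Nat.cast_nonneg a) (by positivity)
      _ = (Real.log Q) ^ (4 : ℝ) := by
          rw [← Real.rpow_add (by linarith)]
          norm_num
      _ ≤ (Real.log Q) ^ K := Real.rpow_le_rpow_of_exponent_le hx1 (by rw [hK]; linarith)
      _ ≤ L := hQL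
  have ha3 : (3 : ℝ) ≤ a := by exact_mod_cast g1
  have hLpos : (0 : ℝ) < L := by nlinarith
  have hasq : (a : ℝ) ≤ Real.sqrt L := by
    apply Real.le_sqrt_of_sq_le
    rw [sq]
    exact haL2
  have hsq : Real.sqrt L * Real.sqrt L = L := Real.mul_self_sqrt hL0
  have haL' : a ≤ L := by
    have : (a : ℝ) ≤ L := by nlinarith
    exact_mod_cast this
  have hz2 : (2 : ℝ) ≤ z := by exact_mod_cast hz
  have hlz : 0 < Real.log z := Real.log_pos (by linarith)
  have hla : 0 < Real.log a := Real.log_pos (by linarith)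
  have hVz := V_pos z
  have hVa := V_pos a
  have hLV : 0 ≤ (L : ℝ) * V z := by positivity
  rcases Nat.lt_or_ge z a with hza | hza
  · have hzs : (z : ℝ) ^ s ≤ L := by
      have h1 : (z : ℝ) ≤ a := by exact_mod_cast hza.le
      exact (pow_le_pow_left₀ (by linarith) h1 s).trans haL
    have hempty : (range M).filter (fun n => ¬ ((1 - ε) * (L * V z) ≤ (sv z L n).card ∧
        ((sv z L n).card : ℝ) ≤ (1 + ε) * (L * V z))) = ∅ := by
      apply filter_eq_empty_iff.2
      intro n _ hcon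
      apply hcon
      obtain ⟨h1, h2⟩ := abs_le.1 (HF L hL1 z hz hzs n)
      have h3 : 0 ≤ ε * (L * V z) := by positivity
      constructor <;> linarith
    rw [hempty, sum_empty]
    have : 0 ≤ ∑ n ∈ range M, |wt Q co n| := sum_nonneg fun n _ => abs_nonneg _
    positivity
  · have hlog1 : 1 ≤ Real.log a := by
      have h9 := Real.exp_one_lt_d9
      have : Real.log (Real.exp 1) ≤ Real.log a := Real.log_le_log (Real.exp_pos _) (by linarith)
      rwa [Real.log_exp] at this
    have hcond : (a : ℝ) * Real.log z ≤ L * Real.log a := by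
      calc (a : ℝ) * Real.log z ≤ Real.sqrt L * Real.sqrt L :=
            mul_le_mul hasq hzL hlz.le (Real.sqrt_nonneg _)
        _ = L := hsq
        _ ≤ L * Real.log a := le_mul_of_one_le_right hL0 hlog1
    obtain ⟨Hl, Hu⟩ := H B a L z M hB0.le hB4 (by omega) haL' hza hcond
      (fun q hq hqz => hd q hq.one_lt.le (hqz.trans (le_max_right _ _)))
    have hVV := V_mul_VI a z hza
    have hflo : ∀ n, (1 - ε / 4) * (L * V a) ≤ ((sv a L n).card : ℝ) := by
      intro n
      have h1 := (abs_le.1 (HF L hL1 a (by omega) haL n)).1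
      linarith
    have hfup : ∀ n, ((sv a L n).card : ℝ) ≤ (1 + ε / 4) * (L * V a) := by
      intro n
      have h1 := (abs_le.1 (HF L hL1 a (by omega) haL n)).2
      linarith
    have b1 := Hl ((1 - ε / 4) * (L * V a)) ((1 - ε) * (L * V z))
      (mul_nonneg (by linarith) hLV) hflo
    have b2 := Hu ((1 + ε / 4) * (L * V a)) ((1 + ε) * (L * V z))
      (mul_nonneg (by linarith) hLV) hfup
    set τ : ℝ := κ * (a / Real.log a) with hτ
    have ht1 : (A + 3) * Real.log Q ≤ τ := by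
      have := mul_le_mul_of_nonneg_left g2 hκ0.le
      calc (A + 3) * Real.log Q = κ * ((A + 3) / κ * Real.log Q) := by field_simp
        _ ≤ τ := this
    have hva := (hV a (by omega)).1
    have hτle : τ ≤ c1 * B * ((a : ℝ) / L) * (ε / 4 * (L * V a)) := by
      have f1 : c1 * B * ((a : ℝ) / L) * (ε / 4 * (L * V a)) = c1 * B * (ε / 4) * a * V a := by
        field_simp
      rw [f1, hτ, hκ]
      calc c1 * B * cv * (ε / 4) * ((a : ℝ) / Real.log a) =
          c1 * B * (ε / 4) * a * (cv / Real.log a) := by ring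
        _ ≤ _ := mul_le_mul_of_nonneg_left hva (by positivity)
    have hLVa : 0 ≤ (L : ℝ) * V a := by positivity
    have e1 : c1 * B * ((a : ℝ) / L) *
        (Real.exp (B * C1) * VI a z * ((1 - ε) * (L * V z)) - (1 - ε / 4) * (L * V a)) ≤ -τ := by
      have f0 : Real.exp (B * C1) * VI a z * ((1 - ε) * (L * V z)) =
          Real.exp (B * C1) * ((1 - ε) * (L * V a)) := by
        rw [← hVV]; ring
      have f1 : Real.exp (B * C1) * ((1 - ε) * (L * V a)) ≤ (1 + ε / 2) * ((1 - ε) * (L * V a)) :=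
        mul_le_mul_of_nonneg_right hexp1 (mul_nonneg (by linarith) hLVa)
      have f2 : Real.exp (B * C1) * VI a z * ((1 - ε) * (L * V z)) - (1 - ε / 4) * (L * V a) ≤
          -(ε / 4 * (L * V a)) := by
        rw [f0]
        have f3 : (1 + ε / 2) * ((1 - ε) * (L * V a)) ≤ (1 - ε / 2) * (L * V a) := by
          have f4 : (1 + ε / 2) * (1 - ε) ≤ 1 - ε / 2 := by nlinarith
          calc (1 + ε / 2) * ((1 - ε) * (L * V a)) = ((1 + ε / 2) * (1 - ε)) * (L * V a) := by ring
            _ ≤ _ := mul_le_mul_of_nonneg_right f4 hLVa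
        linarith
      have f3 := mul_le_mul_of_nonneg_left f2 (by positivity : 0 ≤ c1 * B * ((a : ℝ) / L))
      linarith
    have e2 : c1 * B * ((a : ℝ) / L) *
        ((1 + ε / 4) * (L * V a) - Real.exp (-(B * C1)) * VI a z * ((1 + ε) * (L * V z))) ≤ -τ := by
      have f0 : Real.exp (-(B * C1)) * VI a z * ((1 + ε) * (L * V z)) =
          Real.exp (-(B * C1)) * ((1 + ε) * (L * V a)) := by
        rw [← hVV]; ring
      have f1 : (1 - ε / 4) * ((1 + ε) * (L * V a)) ≤ Real.exp (-(B * C1)) * ((1 + ε) * (L * V a)) :=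
        mul_le_mul_of_nonneg_right hexp2 (mul_nonneg (by linarith) hLVa)
      have f2 : (1 + ε / 4) * (L * V a) - Real.exp (-(B * C1)) * VI a z * ((1 + ε) * (L * V z)) ≤
          -(ε / 4 * (L * V a)) := by
        rw [f0]
        have f3 : (1 + ε / 2) * (L * V a) ≤ (1 - ε / 4) * ((1 + ε) * (L * V a)) := by
          have f4 : 1 + ε / 2 ≤ (1 - ε / 4) * (1 + ε) := by nlinarith
          calc (1 + ε / 2) * (L * V a) ≤ ((1 - ε / 4) * (1 + ε)) * (L * V a) :=
                mul_le_mul_of_nonneg_right f4 hLVa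
            _ = _ := by ring
        linarith
      have f3 := mul_le_mul_of_nonneg_left f2 (by positivity : 0 ≤ c1 * B * ((a : ℝ) / L))
      linarith
    have hM0 : (0 : ℝ) ≤ M := Nat.cast_nonneg M
    apply transfer A Q M co (by omega) hM
      (fun d hd' => hd d (mem_Icc.1 hd').1 ((mem_Icc.1 hd').2.trans (le_max_left _ _))) _ τ ht1
    have hsub : (range M).filter (fun n => ¬ ((1 - ε) * (L * V z) ≤ (sv z L n).card ∧
        ((sv z L n).card : ℝ) ≤ (1 + ε) * (L * V z))) ⊆
        (range M).filter (fun n => ((sv z L n).card : ℝ) < (1 - ε) * (L * V z)) ∪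
        (range M).filter (fun n => (1 + ε) * (L * V z) < ((sv z L n).card : ℝ)) := by
      intro n hn
      rw [mem_filter] at hn
      rw [mem_union, mem_filter, mem_filter]
      by_contra hcon
      push Not at hcon
      exact hn.2 ⟨hcon.1 hn.1, hcon.2 hn.1⟩
    calc (((range M).filter (fun n => ¬ ((1 - ε) * (L * V z) ≤ (sv z L n).card ∧
        ((sv z L n).card : ℝ) ≤ (1 + ε) * (L * V z)))).card : ℝ)
        ≤ (((range M).filter (fun n => ((sv z L n).card : ℝ) < (1 - ε) * (L * V z)) ∪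
        (range M).filter (fun n => (1 + ε) * (L * V z) < ((sv z L n).card : ℝ))).card : ℝ) := by
          exact_mod_cast card_le_card hsub
      _ ≤ (((range M).filter (fun n => ((sv z L n).card : ℝ) < (1 - ε) * (L * V z))).card : ℝ) +
        (((range M).filter (fun n => (1 + ε) * (L * V z) < ((sv z L n).card : ℝ))).card : ℝ) := by
          exact_mod_cast card_union_le _ _
      _ ≤ M * Real.exp (-τ) + M * Real.exp (-τ) := by
          apply add_le_add
          · exact b1.trans (mul_le_mul_of_nonneg_left (Real.exp_le_exp.2 e1) hM0)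
          · exact b2.trans (mul_le_mul_of_nonneg_left (Real.exp_le_exp.2 e2) hM0)

/-- weights of positive mean are positive at good points -/
theorem pos_point {M : ℕ} (w : ℕ → ℝ) (good : ℕ → Prop) [DecidablePred good] (q : ℝ) (hq : q ≤ 1 / 2)
    (h : ∑ n ∈ (range M).filter (fun n => ¬ good n), |w n| ≤ q * ∑ n ∈ range M, |w n|)
    (hpos : 0 < ∑ n ∈ range M, w n) : ∃ n < M, good n ∧ 0 < w n := by
  by_contra hcon
  push Not at hcon
  have h1 := sum_filter_add_sum_filter_not (range M) good (fun n => |w n|)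
  have h2 := sum_filter_add_sum_filter_not (range M) good w
  have h3 : ∑ n ∈ (range M).filter good, w n ≤ -∑ n ∈ (range M).filter good, |w n| := by
    rw [← sum_neg_distrib]
    apply sum_le_sum
    intro n hn
    rw [mem_filter, mem_range] at hn
    have := hcon n hn.1 hn.2
    rw [abs_of_nonpos this, neg_neg]
  have h4 : ∑ n ∈ (range M).filter (fun n => ¬ good n), w n ≤
      ∑ n ∈ (range M).filter (fun n => ¬ good n), |w n| := sum_le_sum fun n _ => le_abs_self _
  have h5 : 0 ≤ ∑ n ∈ range M, |w n| := sum_nonneg fun n _ => abs_nonneg _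
  have h6 : q * ∑ n ∈ range M, |w n| ≤ 1 / 2 * ∑ n ∈ range M, |w n| :=
    mul_le_mul_of_nonneg_right hq h5
  linarith

end Pool.Agent.D0H36.BW
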