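import Mathlib

/-! One step of the exponential moment of the number of survivors: the class of `n` modulo one more
prime is uniformly distributed. -/

set_option autoImplicit false

open Finset

namespace Pool.Agent.D0H36.BW

/-- the `h ≤ L` for which `n + h` has no prime factor `≤ y` -/
def sv (y L n : ℕ) : Finset ℕ := (Icc 1 L).filter (fun h => ∀ p ∈ Icc 1 y, p.Prime → ¬ p ∣ n + h)

theorem mem_sv (y L n h : ℕ) : h ∈ sv y L n ↔ h ∈ Icc 1 L ∧ ∀ p ∈ Icc 1 y, p.Prime → ¬ p ∣ n + h := by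
  unfold sv
  rw [mem_filter]

theorem sv_sub (y L n : ℕ) : sv y L n ⊆ Icc 1 L := filter_subset _ _

theorem sv_anti {y y' : ℕ} (h : y ≤ y') (L n : ℕ) : sv y' L n ⊆ sv y L n := by
  intro a ha
  rw [mem_sv] at ha ⊢
  refine ⟨ha.1, fun p hp => ha.2 p ?_⟩
  rw [mem_Icc] at hp ⊢
  exact ⟨hp.1, hp.2.trans h⟩

theorem sv_np (y L n : ℕ) (h : ¬ (y + 1).Prime) : sv (y + 1) L n = sv y L n := by
  apply Subset.antisymm (sv_anti (Nat.le_succ y) L n)
  intro a ha
  rw [mem_sv] at ha ⊢
  refine ⟨ha.1, fun p hp hpp => ?_⟩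
  rw [mem_Icc] at hp
  have h1 : p ≠ y + 1 := fun h1 => h (h1 ▸ hpp)
  exact ha.2 p (mem_Icc.2 ⟨hp.1, by omega⟩) hpp

theorem sv_pr (y L n : ℕ) (h : (y + 1).Prime) :
    sv (y + 1) L n = (sv y L n).filter (fun a => ¬ (y + 1) ∣ n + a) := by
  ext a
  rw [mem_filter, mem_sv, mem_sv]
  constructor
  · rintro ⟨h1, h2⟩
    refine ⟨⟨h1, fun p hp => h2 p ?_⟩, h2 (y + 1) (mem_Icc.2 ⟨by omega, le_rfl⟩) h⟩
    rw [mem_Icc] at hp ⊢
    exact ⟨hp.1, by omega⟩
  · rintro ⟨⟨h1, h2⟩, h3⟩
    refine ⟨h1, fun p hp hpp => ?_⟩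
    rw [mem_Icc] at hp
    rcases Nat.lt_or_ge p (y + 1) with h4 | h4
    · exact h2 p (mem_Icc.2 ⟨hp.1, by omega⟩) hpp
    · have : p = y + 1 := by omega
      rw [this]
      exact h3

theorem sv_per (y L n N : ℕ) (hN : ∀ p : ℕ, p.Prime → p ≤ y → p ∣ N) : sv y L (n + N) = sv y L n := by
  ext a
  rw [mem_sv, mem_sv]
  apply and_congr_right
  intro _
  constructor
  · intro h p hp hpp hd
    apply h p hp hpp
    have e : n + N + a = (n + a) + N := by ring
    rw [e]
    exact dvd_add hd (hN p hpp (mem_Icc.1 hp).2)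
  · intro h p hp hpp hd
    apply h p hp hpp
    have e : n + N + a = (n + a) + N := by ring
    rw [e] at hd
    exact (Nat.dvd_add_left (hN p hpp (mem_Icc.1 hp).2)).1 hd

theorem sv_per' (y L n N j : ℕ) (hN : ∀ p : ℕ, p.Prime → p ≤ y → p ∣ N) :
    sv y L (n + j * N) = sv y L n := by
  apply sv_per
  intro p hp hpy
  exact (hN p hp hpy).mul_left j

theorem shift_sum (F : ℕ → ℝ) (M : ℕ) (hF : ∀ n, F (n + M) = F n) (t : ℕ) :
    ∑ n ∈ range M, F (n + t) = ∑ n ∈ range M, F n := by
  induction t with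
  | zero => rfl
  | succ t ih =>
    rw [← ih]
    have h1 := sum_range_succ (fun n => F (n + t)) M
    have h2 := sum_range_succ' (fun n => F (n + t)) M
    have h3 : F (M + t) = F (0 + t) := by
      rw [zero_add, add_comm, hF]
    have h4 : ∑ n ∈ range M, F (n + 1 + t) = ∑ n ∈ range M, F (n + (t + 1)) := by
      apply sum_congr rfl
      intro n _
      congr 1
      ring
    rw [h4] at h2
    linarith

/-- each survivor is hit for exactly one shift -/
theorem one_shift (p N n h : ℕ) (hp : p.Prime) (hN : N.Coprime p) :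
    ((range p).filter (fun j => p ∣ n + j * N + h)).card = 1 := by
  have : Fact p.Prime := ⟨hp⟩
  have hN0 : (N : ZMod p) ≠ 0 := by
    intro h0
    rw [ZMod.natCast_eq_zero_iff] at h0
    have := Nat.Coprime.eq_one_of_dvd (Nat.Coprime.symm hN) h0
    exact hp.one_lt.ne' this
  rw [card_eq_one]
  refine ⟨((-((n : ZMod p) + h)) * (N : ZMod p)⁻¹).val, ?_⟩
  ext j
  rw [mem_filter, mem_range, mem_singleton]
  have hkey : p ∣ n + j * N + h ↔ (j : ZMod p) = (-((n : ZMod p) + h)) * (N : ZMod p)⁻¹ := by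
    rw [← ZMod.natCast_eq_zero_iff]
    push_cast
    constructor
    · intro h1
      rw [eq_mul_inv_iff_mul_eq₀ hN0]
      linear_combination h1
    · intro h1
      rw [eq_mul_inv_iff_mul_eq₀ hN0] at h1
      linear_combination h1
  constructor
  · rintro ⟨h1, h2⟩
    rw [hkey] at h2
    rw [← h2, ZMod.val_natCast, Nat.mod_eq_of_lt h1]
  · intro h1
    refine ⟨?_, ?_⟩
    · rw [h1]
      exact ZMod.val_lt _
    · rw [hkey, h1, ZMod.natCast_val, ZMod.cast_id]

theorem sum_hits (S : Finset ℕ) (p N n : ℕ) (hp : p.Prime) (hN : N.Coprime p) :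
    ∑ j ∈ range p, (((S.filter (fun a => p ∣ n + j * N + a)).card : ℕ) : ℝ) = S.card := by
  have h1 : ∑ j ∈ range p, (S.filter (fun a => p ∣ n + j * N + a)).card = S.card := by
    calc ∑ j ∈ range p, (S.filter (fun a => p ∣ n + j * N + a)).card
        = ∑ j ∈ range p, ∑ a ∈ S, (if p ∣ n + j * N + a then 1 else 0) := by
          apply sum_congr rfl
          intro j _
          rw [card_filter]
      _ = ∑ a ∈ S, ∑ j ∈ range p, (if p ∣ n + j * N + a then 1 else 0) := sum_comm
      _ = ∑ a ∈ S, 1 := by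
          apply sum_congr rfl
          intro a _
          rw [← card_filter]
          exact one_shift p N n a hp hN
      _ = S.card := by simp
  exact_mod_cast h1

theorem hits_le (S : Finset ℕ) (L p m : ℕ) (hS : S ⊆ Icc 1 L) (hp : 0 < p) :
    ((S.filter (fun a => p ∣ m + a)).card : ℝ) ≤ (L : ℝ) / p + 1 := by
  have h1 : (S.filter (fun a => p ∣ m + a)).card ≤ (Ioc (m / p) ((m + L) / p)).card := by
    apply card_le_card_of_injOn (fun a => (m + a) / p)
    · intro a ha
      rw [mem_coe, mem_filter] at ha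
      have h2 := mem_Icc.1 (hS ha.1)
      rw [mem_coe, mem_Ioc]
      obtain ⟨k, hk⟩ := ha.2
      constructor
      · show m / p < (m + a) / p
        rw [hk, Nat.mul_div_cancel_left _ hp]
        rw [Nat.div_lt_iff_lt_mul hp]
        calc m < m + a := by omega
          _ = k * p := by rw [hk, mul_comm]
      · apply Nat.div_le_div_right
        omega
    · intro a ha b hb hab
      rw [mem_coe, mem_filter] at ha hb
      obtain ⟨k, hk⟩ := ha.2
      obtain ⟨l, hl⟩ := hb.2
      simp only at hab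
      rw [hk, hl, Nat.mul_div_cancel_left _ hp, Nat.mul_div_cancel_left _ hp] at hab
      subst hab
      omega
  rw [Nat.card_Ioc] at h1
  have h2 : (((m + L) / p - m / p : ℕ) : ℝ) ≤ (L : ℝ) / p + 1 := by
    have hp' : (0 : ℝ) < p := by exact_mod_cast hp
    have h3 : m / p ≤ (m + L) / p := Nat.div_le_div_right (by omega)
    rw [Nat.cast_sub h3]
    have h4 : (((m + L) / p : ℕ) : ℝ) ≤ ((m + L : ℕ) : ℝ) / p := Nat.cast_div_le
    have h5 : (m : ℝ) / p < ((m / p : ℕ) : ℝ) + 1 := by
      rw [div_lt_iff₀ hp']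
      have h6 := Nat.lt_div_mul_add (a := m) hp
      have h7 : (m : ℝ) < ((m / p * p + p : ℕ) : ℝ) := by exact_mod_cast h6
      push_cast at h7
      linarith
    push_cast at h4
    rw [add_div] at h4
    linarith
  calc ((S.filter (fun a => p ∣ m + a)).card : ℝ) ≤ (((m + L) / p - m / p : ℕ) : ℝ) := by
        exact_mod_cast h1
    _ ≤ _ := h2

theorem exp_up {t x : ℝ} (h0 : 0 ≤ t) (h1 : t ≤ x) (h2 : x ≤ 1) : Real.exp t ≤ 1 + t * (1 + x) := by
  have h3 : |Real.exp t - 1 - t| ≤ t ^ 2 :=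
    Real.abs_exp_sub_one_sub_id_le (by rw [abs_of_nonneg h0]; linarith)
  have h4 := (abs_le.1 h3).2
  nlinarith

theorem exp_dn {t x : ℝ} (h0 : 0 ≤ t) (h1 : t ≤ x) (h2 : x ≤ 1) :
    Real.exp (-t) ≤ 1 - t * (1 - x) := by
  have h3 : |Real.exp (-t) - 1 - (-t)| ≤ (-t) ^ 2 :=
    Real.abs_exp_sub_one_sub_id_le (by rw [abs_neg, abs_of_nonneg h0]; linarith)
  have h4 := (abs_le.1 h3).2
  nlinarith

theorem card_split (S : Finset ℕ) (q : ℕ → Prop) [DecidablePred q] :
    ((S.filter (fun a => ¬ q a)).card : ℝ) = S.card - ((S.filter q).card : ℝ) := by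
  have h := card_filter_add_card_filter_not (s := S) q
  have h' : (((S.filter q).card + (S.filter (fun a => ¬ q a)).card : ℕ) : ℝ) = (S.card : ℝ) := by
    exact_mod_cast h
  push_cast at h'
  linarith

/-- one step of the moment of negative order -/
theorem step_lo (y L M : ℕ) (hp : (y + 1).Prime) (hM : ∀ q : ℕ, q.Prime → q ≤ y + 1 → q ∣ M)
    (lam x : ℝ) (hl : 0 ≤ lam) (hx : lam * ((L : ℝ) / ((y + 1 : ℕ) : ℝ) + 1) ≤ x) (hx1 : x ≤ 1) :
    ∑ n ∈ range M, Real.exp (-(lam * (sv (y + 1) L n).card)) ≤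
      ∑ n ∈ range M, Real.exp (-(lam * (1 - (1 + x) / ((y + 1 : ℕ) : ℝ)) * (sv y L n).card)) := by
  set p := y + 1 with hpd
  have hp0 : (0 : ℝ) < (p : ℝ) := by exact_mod_cast hp.pos
  set F : ℕ → ℝ := fun n => Real.exp (-(lam * (sv p L n).card)) with hF
  have hFM : ∀ n, F (n + M) = F n := by
    intro n
    rw [hF]
    simp only
    rw [sv_per p L n M hM]
  set N := y.factorial with hN
  have hNy : ∀ q : ℕ, q.Prime → q ≤ y → q ∣ N := fun q hq hqy => Nat.dvd_factorial hq.pos hqy
  have hcop : N.Coprime p := by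
    rw [hN, hpd]
    exact ((Nat.coprime_factorial_iff hp.ne_one).2 (by rw [hp.minFac_eq]; omega)).symm
  have h1 : (p : ℝ) * ∑ n ∈ range M, F n = ∑ n ∈ range M, ∑ j ∈ range p, F (n + j * N) := by
    rw [sum_comm]
    rw [sum_congr rfl (fun j _ => shift_sum F M hFM (j * N))]
    rw [sum_const, card_range, nsmul_eq_mul]
  have h2 : ∀ n, ∑ j ∈ range p, F (n + j * N) ≤
      p * Real.exp (-(lam * (1 - (1 + x) / (p : ℝ)) * (sv y L n).card)) := by
    intro n
    set S := sv y L n with hS
    have h3 : ∀ j ∈ range p, F (n + j * N) ≤ Real.exp (-(lam * S.card)) *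
        (1 + lam * (((S.filter (fun a => p ∣ n + j * N + a)).card : ℕ) : ℝ) * (1 + x)) := by
      intro j _
      have h4 : sv p L (n + j * N) = S.filter (fun a => ¬ p ∣ n + j * N + a) := by
        rw [hpd, sv_pr y L (n + j * N) hp, sv_per' y L n N j hNy]
      have h5 := card_split S (fun a => p ∣ n + j * N + a)
      have h6 := hits_le S L p (n + j * N) (sv_sub y L n) hp.pos
      rw [hF]
      simp only
      rw [h4, h5]
      set m : ℝ := ((S.filter (fun a => p ∣ n + j * N + a)).card : ℝ) with hm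
      have hm0 : 0 ≤ m := Nat.cast_nonneg _
      have e1 : -(lam * ((S.card : ℝ) - m)) = -(lam * S.card) + lam * m := by ring
      rw [e1, Real.exp_add]
      apply mul_le_mul_of_nonneg_left _ (Real.exp_pos _).le
      apply exp_up (mul_nonneg hl hm0) _ hx1
      exact (mul_le_mul_of_nonneg_left h6 hl).trans hx
    refine (sum_le_sum h3).trans ?_
    rw [← mul_sum, sum_add_distrib, sum_const, card_range, nsmul_eq_mul, mul_one]
    have h7 : ∑ j ∈ range p, lam * (((S.filter (fun a => p ∣ n + j * N + a)).card : ℕ) : ℝ) * (1 + x) =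
        lam * (1 + x) * S.card := by
      rw [← sum_mul, ← mul_sum, sum_hits S p N n hp hcop]
      ring
    rw [h7]
    have h8 : (p : ℝ) + lam * (1 + x) * S.card ≤ p * Real.exp (lam * (1 + x) * S.card / p) := by
      have h9 := Real.add_one_le_exp (lam * (1 + x) * S.card / p)
      have h10 := mul_le_mul_of_nonneg_left h9 hp0.le
      have e2 : (p : ℝ) * (lam * (1 + x) * S.card / p + 1) = p + lam * (1 + x) * S.card := by
        field_simp
        ring
      linarith
    refine (mul_le_mul_of_nonneg_left h8 (Real.exp_pos _).le).trans (le_of_eq ?_)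
    rw [mul_left_comm, ← Real.exp_add]
    congr 2
    field_simp
    ring
  have h4 : (p : ℝ) * ∑ n ∈ range M, F n ≤
      p * ∑ n ∈ range M, Real.exp (-(lam * (1 - (1 + x) / (p : ℝ)) * (sv y L n).card)) := by
    rw [h1, mul_sum]
    exact sum_le_sum fun n _ => h2 n
  exact le_of_mul_le_mul_left h4 hp0

/-- one step of the moment of positive order -/
theorem step_up (y L M : ℕ) (hp : (y + 1).Prime) (hM : ∀ q : ℕ, q.Prime → q ≤ y + 1 → q ∣ M)
    (lam x : ℝ) (hl : 0 ≤ lam) (hx : lam * ((L : ℝ) / ((y + 1 : ℕ) : ℝ) + 1) ≤ x) (hx1 : x ≤ 1) :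
    ∑ n ∈ range M, Real.exp (lam * (sv (y + 1) L n).card) ≤
      ∑ n ∈ range M, Real.exp (lam * (1 - (1 - x) / ((y + 1 : ℕ) : ℝ)) * (sv y L n).card) := by
  set p := y + 1 with hpd
  have hp0 : (0 : ℝ) < (p : ℝ) := by exact_mod_cast hp.pos
  set F : ℕ → ℝ := fun n => Real.exp (lam * (sv p L n).card) with hF
  have hFM : ∀ n, F (n + M) = F n := by
    intro n
    rw [hF]
    simp only
    rw [sv_per p L n M hM]
  set N := y.factorial with hN
  have hNy : ∀ q : ℕ, q.Prime → q ≤ y → q ∣ N := fun q hq hqy => Nat.dvd_factorial hq.pos hqy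
  have hcop : N.Coprime p := by
    rw [hN, hpd]
    exact ((Nat.coprime_factorial_iff hp.ne_one).2 (by rw [hp.minFac_eq]; omega)).symm
  have h1 : (p : ℝ) * ∑ n ∈ range M, F n = ∑ n ∈ range M, ∑ j ∈ range p, F (n + j * N) := by
    rw [sum_comm]
    rw [sum_congr rfl (fun j _ => shift_sum F M hFM (j * N))]
    rw [sum_const, card_range, nsmul_eq_mul]
  have h2 : ∀ n, ∑ j ∈ range p, F (n + j * N) ≤
      p * Real.exp (lam * (1 - (1 - x) / (p : ℝ)) * (sv y L n).card) := by
    intro n
    set S := sv y L n with hS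
    have h3 : ∀ j ∈ range p, F (n + j * N) ≤ Real.exp (lam * S.card) *
        (1 - lam * (((S.filter (fun a => p ∣ n + j * N + a)).card : ℕ) : ℝ) * (1 - x)) := by
      intro j _
      have h4 : sv p L (n + j * N) = S.filter (fun a => ¬ p ∣ n + j * N + a) := by
        rw [hpd, sv_pr y L (n + j * N) hp, sv_per' y L n N j hNy]
      have h5 := card_split S (fun a => p ∣ n + j * N + a)
      have h6 := hits_le S L p (n + j * N) (sv_sub y L n) hp.pos
      rw [hF]
      simp only
      rw [h4, h5]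
      set m : ℝ := ((S.filter (fun a => p ∣ n + j * N + a)).card : ℝ) with hm
      have hm0 : 0 ≤ m := Nat.cast_nonneg _
      have e1 : lam * ((S.card : ℝ) - m) = lam * S.card + -(lam * m) := by ring
      rw [e1, Real.exp_add]
      apply mul_le_mul_of_nonneg_left _ (Real.exp_pos _).le
      apply exp_dn (mul_nonneg hl hm0) _ hx1
      exact (mul_le_mul_of_nonneg_left h6 hl).trans hx
    refine (sum_le_sum h3).trans ?_
    rw [← mul_sum, sum_sub_distrib, sum_const, card_range, nsmul_eq_mul, mul_one]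
    have h7 : ∑ j ∈ range p, lam * (((S.filter (fun a => p ∣ n + j * N + a)).card : ℕ) : ℝ) * (1 - x) =
        lam * (1 - x) * S.card := by
      rw [← sum_mul, ← mul_sum, sum_hits S p N n hp hcop]
      ring
    rw [h7]
    have h8 : (p : ℝ) - lam * (1 - x) * S.card ≤ p * Real.exp (-(lam * (1 - x) * S.card / p)) := by
      have h9 := Real.add_one_le_exp (-(lam * (1 - x) * S.card / p))
      have h10 := mul_le_mul_of_nonneg_left h9 hp0.le
      have e2 : (p : ℝ) * (-(lam * (1 - x) * S.card / p) + 1) = p - lam * (1 - x) * S.card := by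
        field_simp
        ring
      linarith
    refine (mul_le_mul_of_nonneg_left h8 (Real.exp_pos _).le).trans (le_of_eq ?_)
    rw [mul_left_comm, ← Real.exp_add]
    congr 2
    field_simp
    ring
  have h4 : (p : ℝ) * ∑ n ∈ range M, F n ≤
      p * ∑ n ∈ range M, Real.exp (lam * (1 - (1 - x) / (p : ℝ)) * (sv y L n).card) := by
    rw [h1, mul_sum]
    exact sum_le_sum fun n _ => h2 n
  exact le_of_mul_le_mul_left h4 hp0

end Pool.Agent.D0H36.BW
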